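import Mathlib

/-!
# Spaces in which connected sets intersect in connected sets

A Menger type theorem for connected metric spaces with the connected intersection property.
-/

set_option autoImplicit false

open Set Topology Filter

universe u

namespace Pool.Agent.H381R3.CIP

variable {X : Type u} [MetricSpace X]

/-- If `D` is not preconnected, then some nonempty relatively clopen part of `D` misses a given
preconnected part. -/
lemma exists_part {D P : Set X} (hD : ¬ IsPreconnected D) (hP : IsPreconnected P) (hPD : P ⊆ D) :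
    ∃ W : Set X, W.Nonempty ∧ W ⊆ D \ P ∧ Disjoint (closure W) (D \ W) ∧
      Disjoint W (closure (D \ W)) := by
  unfold IsPreconnected at hD
  push Not at hD
  obtain ⟨u, v, hu, hv, hsub, hnu, hnv, hne⟩ := hD
  have hne' : ∀ x ∈ D, x ∈ u → x ∈ v → False := fun x hx h1 h2 => by
    have : x ∈ D ∩ (u ∩ v) := ⟨hx, h1, h2⟩
    rw [hne] at this
    exact this
  have key : ∀ u v : Set X, IsOpen u → IsOpen v → D ⊆ u ∪ v → (D ∩ v).Nonempty →
      (∀ x ∈ D, x ∈ u → x ∈ v → False) → P ⊆ u →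
      ∃ W : Set X, W.Nonempty ∧ W ⊆ D \ P ∧ Disjoint (closure W) (D \ W) ∧
      Disjoint W (closure (D \ W)) := by
    intro u v hu hv hsub hnv hne' hPu
    refine ⟨D ∩ v, hnv, fun x hx => ⟨hx.1, fun h => hne' x hx.1 (hPu h) hx.2⟩, ?_, ?_⟩
    · rw [Set.disjoint_left]
      rintro x hx ⟨hxD, hx2⟩
      have hxu : x ∈ u := by
        rcases hsub hxD with h | h
        · exact h
        · exact absurd ⟨hxD, h⟩ hx2
      obtain ⟨z, hz1, hz2⟩ := mem_closure_iff.1 hx u hu hxu
      exact hne' z hz2.1 hz1 hz2.2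
    · rw [Set.disjoint_left]
      rintro x ⟨hxD, hxv⟩ hx
      obtain ⟨z, hz1, hz2⟩ := mem_closure_iff.1 hx v hv hxv
      exact hz2.2 ⟨hz2.1, hz1⟩
  by_cases hPu : (P ∩ u).Nonempty
  · by_cases hPv : (P ∩ v).Nonempty
    · obtain ⟨x, hx1, hx2, hx3⟩ := hP u v hu hv (hPD.trans hsub) hPu hPv
      exact absurd hx3 (fun h => hne' x (hPD hx1) hx2 h)
    · refine key u v hu hv hsub hnv hne' ?_
      intro x hx
      rcases hsub (hPD hx) with h | h
      · exact h
      · exact absurd ⟨x, hx, h⟩ hPv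
  · refine key v u hv hu (by rwa [union_comm]) hnu (fun x h1 h2 h3 => hne' x h1 h3 h2) ?_
    intro x hx
    rcases hsub (hPD hx) with h | h
    · exact absurd ⟨x, hx, h⟩ hPu
    · exact h

/-- A preconnected set has no nontrivial relatively clopen part. -/
lemma no_part {D Q : Set X} (hD : IsPreconnected D) (hQD : Q ⊆ D) (hQ : Q.Nonempty)
    (h1 : Disjoint (closure Q) (D \ Q)) (h2 : Disjoint Q (closure (D \ Q))) : D ⊆ Q := by
  by_contra hcon
  obtain ⟨z, hzD, hzQ⟩ := Set.not_subset.1 hcon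
  obtain ⟨q, hq⟩ := hQ
  obtain ⟨x, hxD, hx1, hx2⟩ := hD (closure (D \ Q))ᶜ (closure Q)ᶜ isClosed_closure.isOpen_compl
    isClosed_closure.isOpen_compl (by
      intro x hx
      by_cases hxQ : x ∈ Q
      · exact Or.inl (fun h => Set.disjoint_left.1 h2 hxQ h)
      · exact Or.inr (fun h => Set.disjoint_left.1 h1 h ⟨hx, hxQ⟩))
    ⟨q, hQD hq, fun h => Set.disjoint_left.1 h2 hq h⟩
    ⟨z, hzD, fun h => Set.disjoint_left.1 h1 h ⟨hzD, hzQ⟩⟩
  by_cases hxQ : x ∈ Q
  · exact hx2 (subset_closure hxQ)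
  · exact hx1 (subset_closure ⟨hxD, hxQ⟩)

section

variable (A C : Set X)

/-- points joined to `A` by a connected set meeting `C` only in points of `T` -/
def KT (T : Set X) : Set X := {x | ∃ D : Set X, IsPreconnected D ∧ A ⊆ D ∧ D ∩ C ⊆ T ∧ x ∈ D}

lemma KT_mono {S T : Set X} (h : S ⊆ T) : KT A C S ⊆ KT A C T := by
  rintro x ⟨D, h1, h2, h3, h4⟩
  exact ⟨D, h1, h2, h3.trans h, h4⟩

lemma KT_preconn (hA : A.Nonempty) (T : Set X) : IsPreconnected (KT A C T) := by
  obtain ⟨a, ha⟩ := hA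
  have h : KT A C T = ⋃₀ {D : Set X | IsPreconnected D ∧ A ⊆ D ∧ D ∩ C ⊆ T} := by
    ext x
    constructor
    · rintro ⟨D, h1, h2, h3, h4⟩
      exact ⟨D, ⟨h1, h2, h3⟩, h4⟩
    · rintro ⟨D, ⟨h1, h2, h3⟩, h4⟩
      exact ⟨D, h1, h2, h3, h4⟩
  rw [h]
  exact isPreconnected_sUnion a _ (fun D hD => hD.2.1 ha) (fun D hD => hD.1)

lemma KT_inter (T : Set X) : KT A C T ∩ C ⊆ T := by
  rintro x ⟨⟨D, h1, h2, h3, h4⟩, hx⟩
  exact h3 ⟨h4, hx⟩

end

/-- the standing assumptions -/
structure Setup (A C : Set X) : Prop where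
  cip : ∀ A B : Set X, IsPreconnected A → IsPreconnected B → IsPreconnected (A ∩ B)
  conn : IsPreconnected (univ : Set X)
  preA : IsPreconnected A
  neA : A.Nonempty
  disj : Disjoint A C
  cl : closure A = A ∪ C
  max : ∀ D : Set X, IsPreconnected D → A ⊆ D → Disjoint D C → D ⊆ A

variable {A C : Set X}

lemma Setup.hC (S : Setup A C) : C ⊆ closure A := by
  rw [S.cl]; exact subset_union_right

lemma Setup.sub_KT (S : Setup A C) (T : Set X) : A ⊆ KT A C T := by
  intro x hx
  refine ⟨A, S.preA, subset_rfl, ?_, hx⟩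
  rintro z ⟨hz1, hz2⟩
  exact absurd hz2 (Set.disjoint_left.1 S.disj hz1)

lemma Setup.C_sub_KT (S : Setup A C) (T : Set X) : C ∩ T ⊆ KT A C T := by
  rintro c ⟨hc, hcT⟩
  refine ⟨A ∪ {c}, ?_, subset_union_left, ?_, Or.inr rfl⟩
  · refine S.preA.subset_closure subset_union_left (union_subset subset_closure ?_)
    rintro z rfl
    exact S.hC hc
  · rintro z ⟨hz | hz, hzC⟩
    · exact absurd hzC (Set.disjoint_left.1 S.disj hz)
    · rw [mem_singleton_iff] at hz
      rw [hz]; exact hcT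

lemma Setup.KT_cap (S : Setup A C) {T T' : Set X} {x : X} (h : x ∈ KT A C T)
    (h' : x ∈ KT A C T') : x ∈ KT A C (T ∩ T') := by
  obtain ⟨D, h1, h2, h3, h4⟩ := h
  obtain ⟨D', h1', h2', h3', h4'⟩ := h'
  exact ⟨D ∩ D', S.cip _ _ h1 h1', subset_inter h2 h2',
    fun z hz => ⟨h3 ⟨hz.1.1, hz.2⟩, h3' ⟨hz.1.2, hz.2⟩⟩, h4, h4'⟩

lemma Setup.KT_empty (S : Setup A C) : KT A C ∅ ⊆ A := by
  rintro x ⟨D, h1, h2, h3, h4⟩
  exact S.max D h1 h2 (Set.disjoint_left.2 fun z hz hz' => h3 ⟨hz, hz'⟩) h4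

lemma Setup.V_open (S : Setup A C) : IsOpen (A ∪ C)ᶜ := by
  rw [← S.cl]; exact isClosed_closure.isOpen_compl

lemma Setup.KT_closed (S : Setup A C) {T : Set X} {x : X} (hx : x ∈ closure (KT A C T))
    (hxC : x ∉ C) : x ∈ KT A C T := by
  refine ⟨KT A C T ∪ {x}, ?_, (S.sub_KT T).trans subset_union_left, ?_, Or.inr rfl⟩
  · refine (KT_preconn A C S.neA T).subset_closure subset_union_left
      (union_subset subset_closure ?_)
    rintro z rfl
    exact hx
  · rintro z ⟨hz | hz, hzC⟩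
    · exact KT_inter A C T ⟨hz, hzC⟩
    · rw [mem_singleton_iff] at hz
      exact absurd (hz ▸ hzC) hxC

/-- the key alternative -/
lemma Setup.alt (S : Setup A C) (T : Set X) {z : X} (hz : z ∉ A ∪ C) :
    z ∈ KT A C T ∨ z ∈ KT A C Tᶜ := by
  by_contra hcon
  push Not at hcon
  obtain ⟨hzT, hzT'⟩ := hcon
  set M : Set X := (A ∪ C)ᶜ \ KT A C T with hM
  set P : Set X := A ∪ (C ∩ Tᶜ) with hPdef
  set D : Set X := P ∪ M with hD
  have hPpre : IsPreconnected P := by
    refine S.preA.subset_closure subset_union_left (union_subset subset_closure ?_)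
    exact fun c hc => S.hC hc.1
  have hDnot : ¬ IsPreconnected D := by
    intro h
    apply hzT'
    refine ⟨D, h, subset_union_left.trans subset_union_left, ?_, Or.inr ⟨hz, hzT⟩⟩
    rintro x ⟨(hx | hx) | hx, hxC⟩
    · exact absurd hxC (Set.disjoint_left.1 S.disj hx)
    · exact hx.2
    · exact absurd (Or.inr hxC) hx.1
  obtain ⟨W, hWne, hWD, hW1, hW2⟩ := exists_part hDnot hPpre subset_union_left
  have hWM : W ⊆ M := by
    intro x hx
    rcases (hWD hx).1 with h | h
    · exact absurd h (hWD hx).2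
    · exact h
  -- where points are
  have hwhere : ∀ x : X, x ∉ KT A C T → x ∉ W → x ∈ D \ W := by
    intro x hx1 hx2
    refine ⟨?_, hx2⟩
    by_cases hxA : x ∈ A
    · exact Or.inl (Or.inl hxA)
    by_cases hxC : x ∈ C
    · refine Or.inl (Or.inr ⟨hxC, fun hxT => hx1 (S.C_sub_KT T ⟨hxC, hxT⟩)⟩)
    · refine Or.inr ⟨fun h => ?_, hx1⟩
      rcases h with h | h
      · exact hxA h
      · exact hxC h
  have hKW : IsPreconnected (KT A C T ∪ W) := by
    by_contra hnot
    obtain ⟨Q, hQne, hQD, hQ1, hQ2⟩ := exists_part hnot (KT_preconn A C S.neA T)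
      subset_union_left
    have hQW : Q ⊆ W := by
      intro x hx
      rcases (hQD hx).1 with h | h
      · exact absurd h (hQD hx).2
      · exact h
    have huniv : (univ : Set X) ⊆ Q := by
      refine no_part S.conn (subset_univ _) hQne ?_ ?_
      · rw [Set.disjoint_left]
        rintro x hx ⟨-, hxQ⟩
        by_cases h1 : x ∈ KT A C T ∪ W
        · exact Set.disjoint_left.1 hQ1 hx ⟨h1, hxQ⟩
        · exact Set.disjoint_left.1 hW1 (closure_mono hQW hx)
            (hwhere x (fun h => h1 (Or.inl h)) (fun h => h1 (Or.inr h)))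
      · rw [Set.disjoint_left]
        intro x hx hx'
        have hsub : (univ : Set X) \ Q ⊆ ((KT A C T ∪ W) \ Q) ∪ (D \ W) := by
          rintro w ⟨-, hw⟩
          by_cases h1 : w ∈ KT A C T ∪ W
          · exact Or.inl ⟨h1, hw⟩
          · exact Or.inr (hwhere w (fun h => h1 (Or.inl h)) (fun h => h1 (Or.inr h)))
        have h3 := closure_mono hsub hx'
        rw [closure_union] at h3
        rcases h3 with h3 | h3
        · exact Set.disjoint_left.1 hQ2 hx h3
        · exact Set.disjoint_left.1 hW2 (hQW hx) h3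
    obtain ⟨a, ha⟩ := S.neA
    exact (hWM (hQW (huniv (mem_univ a)))).1 (Or.inl ha)
  obtain ⟨w, hw⟩ := hWne
  refine (hWM hw).2 ⟨KT A C T ∪ W, hKW, (S.sub_KT T).trans subset_union_left, ?_, Or.inr hw⟩
  rintro x ⟨hx | hx, hxC⟩
  · exact KT_inter A C T ⟨hx, hxC⟩
  · exact absurd (Or.inr hxC) (hWM hx).1

lemma Setup.not_both (S : Setup A C) {T T' : Set X} {z : X} (hz : z ∉ A ∪ C)
    (h : z ∈ KT A C T) (h' : z ∈ KT A C T') : (T ∩ T').Nonempty := by
  by_contra hne
  rw [Set.not_nonempty_iff_eq_empty] at hne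
  have := S.KT_cap h h'
  rw [hne] at this
  exact hz (Or.inl (S.KT_empty this))

/-- the ultrafilters are locally constant -/
lemma Setup.locconst (S : Setup A C) {z : X} (hz : z ∉ A ∪ C) :
    ∀ᶠ w in 𝓝 z, ∀ T : Set X, z ∈ KT A C T → w ∈ KT A C T := by
  classical
  by_contra hcon
  rw [Filter.not_eventually] at hcon
  have hV : ∀ᶠ w in 𝓝 z, w ∉ A ∪ C := S.V_open.mem_nhds hz
  have hfreq : ∃ᶠ w in 𝓝 z, w ∉ A ∪ C ∧ ∃ T : Set X, z ∈ KT A C T ∧ w ∉ KT A C T := by
    refine (hcon.and_eventually hV).mono ?_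
    rintro w ⟨h1, h2⟩
    push Not at h1
    exact ⟨h2, h1⟩
  obtain ⟨s, hs1, hs2⟩ := Filter.exists_seq_forall_of_frequently hfreq
  choose hs3 T hT1 hT2 using hs2
  -- every set of the ultrafilter at `z` is eventually in the ultrafilters at `s n`
  have hev : ∀ U : Set X, z ∈ KT A C U → ∀ᶠ n in atTop, s n ∈ KT A C U := by
    intro U hU
    by_contra hnot
    rw [Filter.not_eventually] at hnot
    have h1 : ∃ᶠ n in atTop, s n ∈ KT A C Uᶜ :=
      hnot.mono fun n hn => (S.alt U (hs3 n)).resolve_left hn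
    have h2 : z ∈ KT A C Uᶜ := by
      refine S.KT_closed ?_ (fun h => hz (Or.inr h))
      rw [mem_closure_iff_frequently]
      exact hs1.frequently h1
    obtain ⟨x, hx1, hx2⟩ := S.not_both hz hU h2
    exact hx2 hx1
  have hg : ∀ n, ∃ N, ∀ m, N ≤ m → s m ∈ KT A C (T n) := fun n =>
    Filter.eventually_atTop.1 (hev (T n) (hT1 n))
  choose g hg using hg
  let φ : ℕ → ℕ := fun i => Nat.rec 0 (fun _ p => p + 1 + g p) i
  have hφs : ∀ i, φ (i + 1) = φ i + 1 + g (φ i) := fun i => rfl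
  have hφm : StrictMono φ := strictMono_nat_of_lt_succ fun i => by rw [hφs]; omega
  have hφ : ∀ i j, i < j → s (φ j) ∈ KT A C (T (φ i)) := by
    intro i j hij
    refine hg (φ i) (φ j) ?_
    have h1 : φ (i + 1) ≤ φ j := hφm.monotone hij
    rw [hφs] at h1
    omega
  let R : ℕ → Set X := fun i => {x | (∀ j < i, x ∈ T (φ j)) ∧ x ∉ T (φ i)}
  have hR : ∀ i, s (φ i) ∈ KT A C (R i) := by
    intro i
    have h1 : ∀ k, k ≤ i → s (φ i) ∈ KT A C {x | ∀ j < k, x ∈ T (φ j)} := by
      intro k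
      induction k with
      | zero =>
        intro _
        have : {x : X | ∀ j < 0, x ∈ T (φ j)} = univ := by
          ext x; simp
        rw [this]
        exact ⟨univ, S.conn, subset_univ _, subset_univ _, mem_univ _⟩
      | succ k ih =>
        intro hk
        have h2 := S.KT_cap (ih (by omega)) (hφ k i (by omega))
        refine KT_mono A C ?_ h2
        rintro x ⟨hx1, hx2⟩ j hj
        rcases Nat.lt_succ_iff_lt_or_eq.1 hj with h | h
        · exact hx1 j h
        · rw [h]; exact hx2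
    have h2 : s (φ i) ∈ KT A C (T (φ i))ᶜ :=
      (S.alt (T (φ i)) (hs3 (φ i))).resolve_left (hT2 (φ i))
    refine KT_mono A C ?_ (S.KT_cap (h1 i le_rfl) h2)
    rintro x ⟨hx1, hx2⟩
    exact ⟨hx1, hx2⟩
  have hRd : ∀ i j, i < j → Disjoint (R i) (R j) := by
    intro i j hij
    rw [Set.disjoint_left]
    rintro x hx1 hx2
    exact hx1.2 (hx2.1 i hij)
  have hlim : ∀ f : ℕ → ℕ, StrictMono f → z ∈ KT A C (⋃ i, R (f i)) := by
    intro f hf
    refine S.KT_closed ?_ (fun h => hz (Or.inr h))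
    have h1 : Tendsto (fun i => s (φ (f i))) atTop (𝓝 z) :=
      hs1.comp ((hφm.comp hf).tendsto_atTop)
    refine mem_closure_of_tendsto h1 (Eventually.of_forall fun i => ?_)
    exact KT_mono A C (subset_iUnion (fun i => R (f i)) i) (hR (f i))
  obtain ⟨x, hx1, hx2⟩ := S.not_both hz (hlim (fun i => 2 * i) (fun a b h => by simp; omega))
    (hlim (fun i => 2 * i + 1) (fun a b h => by simp; omega))
  obtain ⟨i, hi⟩ := mem_iUnion.1 hx1
  obtain ⟨j, hj⟩ := mem_iUnion.1 hx2
  rcases lt_trichotomy (2 * i) (2 * j + 1) with h | h | h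
  · exact Set.disjoint_left.1 (hRd _ _ h) hi hj
  · omega
  · exact Set.disjoint_left.1 (hRd _ _ h) hj hi

/-- an open subset of `(A ∪ C)ᶜ` which is relatively closed there: its closure belongs to the
ultrafilters of its points. -/
lemma Setup.clopen_mem (S : Setup A C) {P : Set X} (hP : IsOpen P) (hPV : P ⊆ (A ∪ C)ᶜ)
    (hPcl : closure P ∩ (A ∪ C)ᶜ ⊆ P) {z : X} (hz : z ∈ P) : z ∈ KT A C (closure P) := by
  by_contra hcon
  have h1 : z ∈ KT A C (closure P)ᶜ := (S.alt (closure P) (hPV hz)).resolve_left hcon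
  obtain ⟨D, hD1, hD2, hD3, hD4⟩ := h1
  have hpre : IsPreconnected (A ∪ (D ∩ P)) := by
    by_contra hnot
    obtain ⟨Q, hQne, hQD, hQ1, hQ2⟩ := exists_part hnot S.preA subset_union_left
    have hQP : Q ⊆ D ∩ P := by
      intro x hx
      rcases (hQD hx).1 with h | h
      · exact absurd h (hQD hx).2
      · exact h
    have hDQ : D ⊆ Q := by
      refine no_part hD1 (fun x hx => (hQP hx).1) hQne ?_ ?_
      · rw [Set.disjoint_left]
        rintro x hx ⟨hxD, hxQ⟩
        have hxP : x ∈ closure P := closure_mono (fun w hw => (hQP hw).2) hx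
        by_cases hxA : x ∈ A
        · exact Set.disjoint_left.1 hQ1 hx ⟨Or.inl hxA, hxQ⟩
        by_cases hxC : x ∈ C
        · exact hD3 ⟨hxD, hxC⟩ hxP
        · have hxV : x ∈ (A ∪ C)ᶜ := fun h => h.elim hxA hxC
          exact Set.disjoint_left.1 hQ1 hx ⟨Or.inr ⟨hxD, hPcl ⟨hxP, hxV⟩⟩, hxQ⟩
      · rw [Set.disjoint_left]
        intro x hx hx'
        have hsub : D \ Q ⊆ ((A ∪ (D ∩ P)) \ Q) ∪ Pᶜ := by
          rintro w ⟨hwD, hwQ⟩
          by_cases hwP : w ∈ P
          · exact Or.inl ⟨Or.inr ⟨hwD, hwP⟩, hwQ⟩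
          · exact Or.inr hwP
        have h3 := closure_mono hsub hx'
        rw [closure_union] at h3
        rcases h3 with h3 | h3
        · exact Set.disjoint_left.1 hQ2 hx h3
        · rw [hP.isClosed_compl.closure_eq] at h3
          exact h3 (hQP hx).2
    obtain ⟨a, ha⟩ := S.neA
    exact hPV (hQP (hDQ (hD2 ha))).2 (Or.inl ha)
  have h2 : A ∪ (D ∩ P) ⊆ A := by
    refine S.max _ hpre subset_union_left ?_
    rw [Set.disjoint_left]
    rintro x (hx | hx) hxC
    · exact Set.disjoint_left.1 S.disj hx hxC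
    · exact hPV hx.2 (Or.inr hxC)
  exact hPV hz (Or.inl (h2 (Or.inr ⟨hD4, hz⟩)))

/-- The core of the argument: the ultrafilter of a point is principal. -/
lemma Setup.principal (S : Setup A C) {y : X} (hy : y ∉ A ∪ C) :
    ∃ c ∈ C, y ∉ KT A C {c}ᶜ := by
  by_contra hcon
  push Not at hcon
  set W : Set X := {z | z ∉ A ∪ C ∧ ∀ T : Set X, y ∈ KT A C T → z ∈ KT A C T} with hW
  have hWV : W ⊆ (A ∪ C)ᶜ := fun z hz => hz.1
  have hyW : y ∈ W := ⟨hy, fun T h => h⟩
  -- equality of the ultrafilters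
  have hiff : ∀ z ∈ W, ∀ T : Set X, z ∈ KT A C T → y ∈ KT A C T := by
    intro z hz T h
    by_contra hnot
    have h1 := (S.alt T hy).resolve_left hnot
    obtain ⟨x, hx1, hx2⟩ := S.not_both hz.1 h (hz.2 _ h1)
    exact hx2 hx1
  have hWopen : IsOpen W := by
    rw [isOpen_iff_mem_nhds]
    intro z hz
    filter_upwards [S.locconst hz.1, S.V_open.mem_nhds hz.1] with w hw1 hw2
    exact ⟨hw2, fun T hT => hw1 T (hz.2 T hT)⟩
  have hWcl : closure W ∩ (A ∪ C)ᶜ ⊆ W := by
    rintro z ⟨hz1, hz2⟩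
    obtain ⟨w, hw1, hw2⟩ := mem_closure_iff_nhds.1 hz1 _ (S.locconst hz2)
    refine ⟨hz2, fun T hT => ?_⟩
    by_contra hnot
    have h1 := (S.alt T hz2).resolve_left hnot
    have h2 : w ∈ KT A C Tᶜ := hw1 _ h1
    obtain ⟨x, hx1, hx2⟩ := S.not_both hw2.1 (hw2.2 T hT) h2
    exact hx2 hx1
  -- sets `E` of the ultrafilter inside `C ∩ closure W` are connected
  have hE : ∀ E : Set X, E ⊆ C ∩ closure W → y ∈ KT A C E → IsPreconnected E := by
    intro E hEsub hyE
    have h1 : IsPreconnected (A ∪ E) :=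
      S.preA.subset_closure subset_union_left
        (union_subset subset_closure (fun e he => S.hC (hEsub he).1))
    have h2 : IsPreconnected (W ∪ E) := by
      intro u v hu hv hsub hnu hnv
      by_contra hne
      have hne' : ∀ x ∈ W ∪ E, x ∈ u → x ∈ v → False := fun x hx h1 h2 =>
        hne ⟨x, hx, h1, h2⟩
      have key : ∀ u v : Set X, IsOpen u → IsOpen v → W ∪ E ⊆ u ∪ v →
          ((W ∪ E) ∩ u).Nonempty → (∀ x ∈ W ∪ E, x ∈ u → x ∈ v → False) →
          y ∈ KT A C (closure (W ∩ u)) := by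
        intro u v hu hv hsub hnu hne'
        have hne1 : (W ∩ u).Nonempty := by
          obtain ⟨x, hx | hx, hxu⟩ := hnu
          · exact ⟨x, hx, hxu⟩
          · obtain ⟨w, hw1, hw2⟩ := mem_closure_iff.1 (hEsub hx).2 u hu hxu
            exact ⟨w, hw2, hw1⟩
        obtain ⟨p, hp⟩ := hne1
        refine hiff p hp.1 _ (S.clopen_mem (hWopen.inter hu) (fun x hx => hWV hx.1) ?_ hp)
        rintro x ⟨hx1, hx2⟩
        have hxW : x ∈ W := hWcl ⟨closure_mono inter_subset_left hx1, hx2⟩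
        refine ⟨hxW, ?_⟩
        rcases hsub (Or.inl hxW) with h | h
        · exact h
        · obtain ⟨w, hw1, hw2⟩ := mem_closure_iff.1 hx1 v hv h
          exact (hne' w (Or.inl hw2.1) hw2.2 hw1).elim
      have h3 := key u v hu hv hsub hnu hne'
      have h4 := key v u hv hu (by rwa [union_comm u v] at hsub) hnv
        (fun x hx h1 h2 => hne' x hx h2 h1)
      obtain ⟨e, ⟨he1, he2⟩, he3⟩ := S.not_both hy (S.KT_cap h3 h4) hyE
      rcases hsub (Or.inr he3) with h | h
      · obtain ⟨w, hw1, hw2⟩ := mem_closure_iff.1 he2 u hu h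
        exact hne' w (Or.inl hw2.1) hw1 hw2.2
      · obtain ⟨w, hw1, hw2⟩ := mem_closure_iff.1 he1 v hv h
        exact hne' w (Or.inl hw2.1) hw2.2 hw1
    have h3 : (W ∪ E) ∩ (A ∪ E) = E := by
      ext x
      constructor
      · rintro ⟨h4 | h4, h5 | h5⟩
        · exact absurd (Or.inl h5) (hWV h4)
        · exact h5
        · exact h4
        · exact h4
      · intro hx
        exact ⟨Or.inr hx, Or.inr hx⟩
    rw [← h3]
    exact S.cip _ _ h2 h1
  -- the trace on `C`
  have hCmem : ∀ T : Set X, y ∈ KT A C T → y ∈ KT A C (C ∩ T) := by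
    rintro T ⟨D, h1, h2, h3, h4⟩
    exact ⟨D, h1, h2, fun x hx => ⟨hx.2, h3 hx⟩, h4⟩
  have hT0 : y ∈ KT A C (C ∩ closure W) := hCmem _ (S.clopen_mem hWopen hWV hWcl hyW)
  obtain ⟨a, ha, -⟩ := S.not_both hy hT0 hT0
  obtain ⟨b, hb, hba⟩ := S.not_both hy hT0 (hcon a ha.1)
  have hab : 0 < dist a b := dist_pos.2 (fun h => hba h.symm)
  obtain ⟨r, hr0, hr1, hr2⟩ : ∃ r : ℝ, 0 < r ∧ r < dist a b ∧
      y ∉ KT A C {x | dist a x = r} := by
    by_cases h : y ∈ KT A C {x | dist a x = dist a b / 2}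
    · refine ⟨dist a b / 3, by linarith, by linarith, fun h' => ?_⟩
      obtain ⟨x, hx1, hx2⟩ := S.not_both hy h h'
      simp only [mem_setOf_eq] at hx1 hx2
      linarith
    · exact ⟨dist a b / 2, by linarith, by linarith, h⟩
  have h5 : y ∈ KT A C {x | dist a x = r}ᶜ := (S.alt _ hy).resolve_left hr2
  have h6 := S.KT_cap hT0 h5
  have h7 := hE _ inter_subset_left h6
  obtain ⟨x, -, hx1, hx2⟩ := h7 {x | dist a x < r} {x | r < dist a x}
    (isOpen_lt (continuous_const.dist continuous_id) continuous_const)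
    (isOpen_lt continuous_const (continuous_const.dist continuous_id))
    (fun x hx => by
      have : dist a x ≠ r := hx.2
      rcases lt_or_gt_of_ne this with h | h
      · exact Or.inl h
      · exact Or.inr h)
    ⟨a, ⟨ha, by simp only [mem_compl_iff, mem_setOf_eq, dist_self]; exact hr0.ne⟩, by
      simp only [mem_setOf_eq, dist_self]; exact hr0⟩
    ⟨b, ⟨hb, by simp only [mem_compl_iff, mem_setOf_eq]; exact hr1.ne'⟩, hr1⟩
  simp only [mem_setOf_eq] at hx1 hx2
  linarith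

/-- **Menger type theorem.** -/
theorem main [ConnectedSpace X]
    (hCIP : ∀ A B : Set X, IsPreconnected A → IsPreconnected B → IsPreconnected (A ∩ B))
    (A C : Set X) (hA : IsPreconnected A) (hne : A.Nonempty) (hAC : Disjoint A C)
    (hC : C ⊆ closure A) (y : X) (hyC : y ∉ C)
    (hy : ∀ c ∈ C, ∃ D : Set X, IsPreconnected D ∧ A ⊆ D ∧ y ∈ D ∧ c ∉ D) :
    ∃ D : Set X, IsPreconnected D ∧ A ⊆ D ∧ y ∈ D ∧ Disjoint D C := by
  by_contra hcon
  set B : Set X := KT A C ∅ with hB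
  have hAB : A ⊆ B := by
    intro x hx
    exact ⟨A, hA, subset_rfl, fun z hz => absurd hz.2 (Set.disjoint_left.1 hAC hz.1), hx⟩
  have hBpre : IsPreconnected B := KT_preconn A C hne ∅
  have hBC : Disjoint B C := by
    rw [Set.disjoint_left]
    intro x hx hxC
    exact KT_inter A C ∅ ⟨hx, hxC⟩
  have hcl : closure B = B ∪ C := by
    apply Subset.antisymm
    · intro x hx
      by_cases hxC : x ∈ C
      · exact Or.inr hxC
      · refine Or.inl ⟨B ∪ {x}, ?_, hAB.trans subset_union_left, ?_, Or.inr rfl⟩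
        · refine hBpre.subset_closure subset_union_left (union_subset subset_closure ?_)
          rintro z rfl
          exact hx
        · rintro z ⟨hz | hz, hzC⟩
          · exact (Set.disjoint_left.1 hBC hz hzC).elim
          · rw [mem_singleton_iff] at hz
            exact absurd (hz ▸ hzC) hxC
    · exact union_subset subset_closure (hC.trans (closure_mono hAB))
  have S : Setup B C :=
    { cip := hCIP
      conn := isPreconnected_univ
      preA := hBpre
      neA := hne.mono hAB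
      disj := hBC
      cl := hcl
      max := fun D hD1 hD2 hD3 x hx =>
        ⟨D, hD1, hAB.trans hD2, fun z hz => absurd hz.2 (Set.disjoint_left.1 hD3 hz.1), hx⟩ }
  have hyB : y ∉ B ∪ C := by
    rintro (h | h)
    · obtain ⟨D, h1, h2, h3, h4⟩ := h
      exact hcon ⟨D, h1, h2, h4, Set.disjoint_left.2 fun z hz hz' => h3 ⟨hz, hz'⟩⟩
    · exact hyC h
  obtain ⟨c, hc, hyc⟩ := S.principal hyB
  obtain ⟨D, h1, h2, h3, h4⟩ := hy c hc
  obtain ⟨a, ha⟩ := hne
  refine hyc ⟨D ∪ B, ?_, subset_union_right, ?_, Or.inl h3⟩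
  · exact h1.union a (h2 ha) (hAB ha) hBpre
  · rintro x ⟨hx | hx, hxC⟩
    · exact fun h => h4 (by rw [mem_singleton_iff] at h; exact h ▸ hx)
    · exact (Set.disjoint_left.1 hBC hx hxC).elim

end Pool.Agent.H381R3.CIP
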