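import Mathlib
import Pool.Agent.Helper996.DowkerTree

/-! Nodes of the tree of restrictions of a coherent sequence, and one-sided neighbourhoods. -/

namespace Pool.Agent.H381R3.Roth

open Set

/-- A node: a nonempty restriction of one of the functions `e a`, together with its height. -/
@[ext] structure Node {W : Type} [LinearOrder W] (e : W → W → ℕ) where
  ht : W
  fn : W → ℕ
  pos : ∃ c, c < ht
  zero : ∀ c, ht ≤ c → fn c = 0
  rep : ∃ a, ht ≤ a ∧ ∀ c, c < ht → fn c = e a c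

variable {W : Type} [LinearOrder W] {e : W → W → ℕ}

/-- `t` extends `s`. -/
def Le (s t : Node e) : Prop := s.ht ≤ t.ht ∧ ∀ c, c < s.ht → t.fn c = s.fn c

theorem Le.refl (s : Node e) : Le s s := ⟨le_rfl, fun _ _ => rfl⟩

theorem Le.trans {s t u : Node e} (h1 : Le s t) (h2 : Le t u) : Le s u :=
  ⟨h1.1.trans h2.1, fun c hc => (h2.2 c (hc.trans_le h1.1)).trans (h1.2 c hc)⟩

theorem node_eq {s t : Node e} (h : s.ht = t.ht) (h2 : ∀ c, c < s.ht → t.fn c = s.fn c) :
    s = t := by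
  ext c
  · exact h
  · by_cases hc : c < s.ht
    · exact (h2 c hc).symm
    · rw [s.zero c (not_lt.1 hc), t.zero c (h ▸ not_lt.1 hc)]

theorem Le.antisymm {s t : Node e} (h1 : Le s t) (h2 : Le t s) : s = t :=
  node_eq (le_antisymm h1.1 h2.1) h1.2

/-- restriction of a node to a smaller height -/
def res (t : Node e) (d : W) (hd : d ≤ t.ht) (hp : ∃ c, c < d) : Node e where
  ht := d
  fn := fun c => if c < d then t.fn c else 0
  pos := hp
  zero := fun c hc => by simp [not_lt.2 hc]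
  rep := by
    obtain ⟨a, ha, h⟩ := t.rep
    refine ⟨a, hd.trans ha, fun c hc => ?_⟩
    simp only [hc, if_true]
    exact h c (hc.trans_le hd)

theorem res_le (t : Node e) (d : W) (hd : d ≤ t.ht) (hp : ∃ c, c < d) : Le (res t d hd hp) t := by
  refine ⟨hd, fun c hc => ?_⟩
  have hc' : c < d := hc
  simp [res, hc']

theorem res_fn (t : Node e) (d : W) (hd : d ≤ t.ht) (hp : ∃ c, c < d) {c : W} (hc : c < d) :
    (res t d hd hp).fn c = t.fn c := by
  simp [res, hc]

theorem le_res {s t : Node e} (h : Le s t) (d : W) (hd : d ≤ t.ht) (hp : ∃ c, c < d)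
    (hs : s.ht ≤ d) : Le s (res t d hd hp) := by
  refine ⟨hs, fun c hc => ?_⟩
  rw [res_fn t d hd hp (hc.trans_le hs)]
  exact h.2 c hc

/-- the order on labels or its reverse -/
def lab (σ : Bool) (a b : ℕ) : Prop := match σ with
  | true => a < b
  | false => b < a

theorem lab_asymm {σ : Bool} {a b : ℕ} (h : lab σ a b) : ¬ lab σ b a := by
  cases σ <;> simp only [lab] at * <;> omega

theorem lab_ne {σ : Bool} {a b : ℕ} (h : lab σ a b) : a ≠ b := by
  cases σ <;> simp only [lab] at * <;> omega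

theorem lab_total (σ : Bool) {a b : ℕ} (h : a ≠ b) : lab σ a b ∨ lab σ b a := by
  cases σ <;> simp only [lab] at * <;> omega

theorem lab_flip {a b : ℕ} (h : lab true a b) : ¬ lab false a b := by
  simp only [lab] at *
  omega

/-- `s` is on the `σ`-side of `t`: the two nodes are incomparable and split that way. -/
def R (σ : Bool) (t s : Node e) : Prop :=
  ∃ c, c < t.ht ∧ c < s.ht ∧ (∀ b, b < c → s.fn b = t.fn b) ∧ lab σ (t.fn c) (s.fn c)

theorem R.not_le {σ : Bool} {t s : Node e} (h : R σ t s) : ¬ Le s t := by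
  obtain ⟨c, h1, h2, h3, h4⟩ := h
  intro hle
  exact lab_ne h4 (hle.2 c h2)

theorem R.not_ge {σ : Bool} {t s : Node e} (h : R σ t s) : ¬ Le t s := by
  obtain ⟨c, h1, h2, h3, h4⟩ := h
  intro hle
  exact lab_ne h4 (hle.2 c h1).symm

theorem R.asymm {σ τ : Bool} {t s : Node e} (h : R σ t s) (h' : R τ s t) (hst : σ = τ) : False := by
  subst hst
  obtain ⟨c, h1, h2, h3, h4⟩ := h
  obtain ⟨d, k1, k2, k3, k4⟩ := h'
  rcases lt_trichotomy c d with hcd | hcd | hcd
  · exact lab_ne h4 (k3 c hcd)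
  · subst hcd
    exact lab_asymm h4 k4
  · exact lab_ne k4 (h3 d hcd)

theorem R.flip {t s : Node e} (h : R true t s) (h' : R false t s) : False := by
  obtain ⟨c, h1, h2, h3, h4⟩ := h
  obtain ⟨d, k1, k2, k3, k4⟩ := h'
  rcases lt_trichotomy c d with hcd | hcd | hcd
  · exact lab_ne h4 (k3 c hcd).symm
  · subst hcd
    exact lab_flip h4 k4
  · exact lab_ne k4 (h3 d hcd).symm

/-- extending the right-hand node -/
theorem R.ext_right {σ : Bool} {t s r : Node e} (h : R σ t s) (hr : Le s r) : R σ t r := by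
  obtain ⟨c, h1, h2, h3, h4⟩ := h
  refine ⟨c, h1, h2.trans_le hr.1, fun b hb => ?_, ?_⟩
  · rw [hr.2 b (hb.trans h2)]
    exact h3 b hb
  · rw [hr.2 c h2]
    exact h4

/-- extending the left-hand node -/
theorem R.ext_left {σ : Bool} {t s r : Node e} (h : R σ t s) (hr : Le t r) : R σ r s := by
  obtain ⟨c, h1, h2, h3, h4⟩ := h
  refine ⟨c, h1.trans_le hr.1, h2, fun b hb => ?_, ?_⟩
  · rw [hr.2 b (hb.trans h1)]
    exact h3 b hb
  · rw [hr.2 c h1]
    exact h4

theorem cases4 [WellFoundedLT W] (σ : Bool) (s t : Node e) :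
    Le s t ∨ Le t s ∨ R σ t s ∨ R σ s t := by
  by_cases h : ∃ c, c < s.ht ∧ c < t.ht ∧ s.fn c ≠ t.fn c
  · obtain ⟨c, ⟨h1, h2, h3⟩, hmin⟩ := WellFounded.has_min (wellFounded_lt (α := W))
      {c | c < s.ht ∧ c < t.ht ∧ s.fn c ≠ t.fn c} h
    have hagree : ∀ b, b < c → s.fn b = t.fn b := by
      intro b hb
      by_contra hne
      exact hmin b ⟨hb.trans h1, hb.trans h2, hne⟩ hb
    rcases lab_total σ h3 with h4 | h4
    · exact Or.inr (Or.inr (Or.inr ⟨c, h1, h2, fun b hb => (hagree b hb).symm, h4⟩))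
    · exact Or.inr (Or.inr (Or.inl ⟨c, h2, h1, hagree, h4⟩))
  · push Not at h
    rcases le_total s.ht t.ht with h1 | h1
    · exact Or.inl ⟨h1, fun c hc => (h c hc (hc.trans_le h1)).symm⟩
    · exact Or.inr (Or.inl ⟨h1, fun c hc => h c (hc.trans_le h1) hc⟩)

/-- basic neighbourhood -/
def N (σ : Bool) (t : Node e) (z : W) : Set (Node e) :=
  {s | z < s.ht ∧ (∀ c, c ≤ z → s.fn c = t.fn c) ∧ (Le s t ∨ R σ t s)}

theorem self_mem_N (σ : Bool) (t : Node e) {z : W} (hz : z < t.ht) : t ∈ N σ t z :=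
  ⟨hz, fun _ _ => rfl, Or.inl (Le.refl t)⟩

theorem N_anti (σ : Bool) (t : Node e) {z z' : W} (h : z ≤ z') : N σ t z' ⊆ N σ t z :=
  fun _ hs => ⟨h.trans_lt hs.1, fun c hc => hs.2.1 c (hc.trans h), hs.2.2⟩

/-- basic neighbourhoods are open -/
theorem N_open [WellFoundedLT W] {σ : Bool} {t s : Node e} {z : W} (hs : s ∈ N σ t z) :
    ∃ z', z' < s.ht ∧ N σ s z' ⊆ N σ t z := by
  obtain ⟨h1, h2, h3⟩ := hs
  rcases h3 with h3 | h3
  · refine ⟨z, h1, ?_⟩
    rintro r ⟨k1, k2, k3⟩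
    refine ⟨k1, fun c hc => (k2 c hc).trans (h2 c hc), ?_⟩
    rcases k3 with k3 | k3
    · exact Or.inl (k3.trans h3)
    · exact Or.inr (k3.ext_left h3)
  · obtain ⟨c, m1, m2, m3, m4⟩ := h3
    have hzc : z < c := by
      by_contra hcon
      exact lab_ne m4 (h2 c (not_lt.1 hcon)).symm
    refine ⟨c, m2, ?_⟩
    rintro r ⟨k1, k2, k3⟩
    refine ⟨hzc.trans k1, fun d hd => (k2 d (hd.trans hzc.le)).trans (h2 d hd), Or.inr ?_⟩
    refine ⟨c, m1, k1, fun b hb => (k2 b hb.le).trans (m3 b hb), ?_⟩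
    rw [k2 c le_rfl]
    exact m4

/-- basic neighbourhoods are closed -/
theorem N_closed [WellFoundedLT W] {σ : Bool} {t s : Node e} {z : W}
    (hs : s ∉ N σ t z) : ∃ z', z' < s.ht ∧ N σ s z' ⊆ (N σ t z)ᶜ := by
  by_cases hd : ∃ c, c < s.ht ∧ c ≤ z ∧ s.fn c ≠ t.fn c
  · obtain ⟨c, h1, h2, h3⟩ := hd
    refine ⟨c, h1, ?_⟩
    rintro r ⟨k1, k2, k3⟩ hr
    exact h3 ((k2 c le_rfl).symm.trans (hr.2.1 c h2))
  push Not at hd
  by_cases hzs : z < s.ht
  · have hnot : ¬ (Le s t ∨ R σ t s) := fun h => hs ⟨hzs, fun c hc => hd c (hc.trans_lt hzs) hc, h⟩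
    rcases cases4 σ s t with h | h | h | h
    · exact (hnot (Or.inl h)).elim
    · have hlt : t.ht < s.ht := by
        rcases h.1.lt_or_eq with h' | h'
        · exact h'
        · have hst : s = t := node_eq h'.symm (fun c hc => (h.2 c (h' ▸ hc)).symm)
          exact (hnot (Or.inl (hst ▸ Le.refl s))).elim
      refine ⟨t.ht, hlt, ?_⟩
      rintro r ⟨k1, k2, k3⟩ hr
      have hle : Le t r := ⟨k1.le, fun c hc => (k2 c hc.le).trans (h.2 c hc)⟩
      rcases hr.2.2 with h5 | h5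
      · exact absurd h5.1 (not_le.2 k1)
      · exact h5.not_ge hle
    · exact (hnot (Or.inr h)).elim
    · obtain ⟨c, m1, m2, m3, m4⟩ := h
      refine ⟨c, m1, ?_⟩
      rintro r ⟨k1, k2, k3⟩ hr
      have hR : R σ r t := by
        refine ⟨c, k1, m2, fun b hb => ?_, ?_⟩
        · rw [m3 b hb, k2 b hb.le]
        · rw [k2 c le_rfl]
          exact m4
      rcases hr.2.2 with h5 | h5
      · exact hR.not_ge h5
      · exact R.asymm hR h5 rfl
  · obtain ⟨c0, hc0⟩ := s.pos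
    refine ⟨c0, hc0, ?_⟩
    rintro r ⟨k1, k2, k3⟩ hr
    rcases k3 with k3 | k3
    · exact hzs (hr.1.trans_le k3.1)
    · obtain ⟨c, m1, m2, m3, m4⟩ := k3
      have hcz : c ≤ z := m1.le.trans (not_lt.1 hzs)
      refine lab_ne m4 ?_
      rw [hd c m1 hcz, hr.2.1 c hcz]

end Pool.Agent.H381R3.Roth
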