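import Mathlib
import Pool.Agent.H381R3.Node

/-! The covering lemma: every assignment of basic one-sided neighbourhoods has a countable
subcover. -/

namespace Pool.Agent.H381R3.Roth

open Set

variable {W : Type} [LinearOrder W] {e : W → W → ℕ}

theorem bdd_of_countable (hc : ∀ a : W, (Iio a).Countable) (hu : ¬ (univ : Set W).Countable)
    {S : Set W} (hS : S.Countable) : ∃ b, ∀ a ∈ S, a < b := by
  by_contra hcon
  push Not at hcon
  apply hu
  have h1 : (⋃ a ∈ S, Iic a).Countable := by
    refine hS.biUnion fun a _ => ?_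
    rw [← Iio_union_right]
    exact (hc a).union (countable_singleton a)
  refine h1.mono fun b _ => ?_
  obtain ⟨a, ha, hab⟩ := hcon b
  exact mem_biUnion ha hab

/-- the nodes of a given height are countable in number -/
theorem countable_level (hc : ∀ a : W, (Iio a).Countable)
    (he : ∀ a b, b < a → {c | c < b ∧ e a c ≠ e b c}.Finite) (d : W) :
    {t : Node e | t.ht = d}.Countable := by
  have h1 := Helper996.Dowker.countable_restrictions hc e he d
  have h2 : (insert (fun c => if c < d then e d c else 0)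
      {h : W → ℕ | ∃ a, d < a ∧ h = fun c => if c < d then e a c else 0}).Countable :=
    h1.insert _
  refine MapsTo.countable_of_injOn (f := fun t : Node e => t.fn) ?_ ?_ h2
  · intro t ht
    have ht' : t.ht = d := ht
    obtain ⟨a, ha, h⟩ := t.rep
    have h3 : t.fn = fun c => if c < d then e a c else 0 := by
      funext c
      by_cases hcd : c < d
      · simp only [hcd, if_true]
        exact h c (ht' ▸ hcd)
      · simp only [hcd, if_false]
        exact t.zero c (ht' ▸ not_lt.1 hcd)
    rcases (ht' ▸ ha : d ≤ a).lt_or_eq with h4 | h4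
    · exact mem_insert_of_mem _ ⟨a, h4, h3⟩
    · subst h4
      exact mem_insert_iff.2 (Or.inl h3)
  · intro t ht s hs h
    have ht' : t.ht = d := ht
    have hs' : s.ht = d := hs
    exact node_eq (ht'.trans hs'.symm) (fun c _ => (congrFun h c).symm)

theorem countable_le (hc : ∀ a : W, (Iio a).Countable)
    (he : ∀ a b, b < a → {c | c < b ∧ e a c ≠ e b c}.Finite) (d : W) :
    {t : Node e | t.ht ≤ d}.Countable := by
  have h1 : (⋃ a ∈ Iic d, {t : Node e | t.ht = a}).Countable := by
    refine Countable.biUnion ?_ fun a _ => countable_level hc he a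
    rw [← Iio_union_right]
    exact (hc d).union (countable_singleton d)
  refine h1.mono fun t ht => ?_
  exact mem_biUnion (show t.ht ∈ Iic d from ht) rfl

/-- there is no cofinal branch -/
theorem no_branch (hc : ∀ a : W, (Iio a).Countable) (hu : ¬ (univ : Set W).Countable)
    (hfin : ∀ a k, {b | b < a ∧ e a b = k}.Finite) (F : W → ℕ) (d0 : W)
    (hF : ∀ d, d0 ≤ d → ∃ t : Node e, t.ht = d ∧ ∀ c, c < d → t.fn c = F c) : False := by
  have h1 : ∃ k, ¬ {c | F c = k}.Countable := by
    by_contra hcon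
    push Not at hcon
    apply hu
    have : (⋃ k, {c | F c = k}).Countable := countable_iUnion hcon
    refine this.mono fun c _ => ?_
    exact mem_iUnion.2 ⟨F c, rfl⟩
  obtain ⟨k, hk⟩ := h1
  have hinf : {c | F c = k}.Infinite := fun h => hk h.countable
  obtain ⟨S, hS1, hS2⟩ : ∃ S : Set W, S ⊆ {c | F c = k} ∧ S.Infinite ∧ S.Countable := by
    refine ⟨range (hinf.natEmbedding _ · |>.1), ?_, ?_, countable_range _⟩
    · rintro _ ⟨n, rfl⟩
      exact (hinf.natEmbedding _ n).2
    · apply infinite_range_of_injective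
      intro a b hab
      exact (hinf.natEmbedding _).injective (Subtype.ext hab)
  obtain ⟨b, hb⟩ := bdd_of_countable hc hu hS2.2
  obtain ⟨t, ht1, ht2⟩ := hF (max d0 b) (le_max_left _ _)
  obtain ⟨a, ha, h⟩ := t.rep
  refine hS2.1 ((hfin a k).subset fun c hcS => ?_)
  have h3 : c < max d0 b := (hb c hcS).trans_le (le_max_right _ _)
  refine ⟨h3.trans_le (ht1 ▸ ha), ?_⟩
  rw [← h c (ht1 ▸ h3), ht2 c h3]
  exact hS1 hcS

/-- `S` is covered by countably many of the chosen neighbourhoods -/
def Cov (σ : Bool) (z : Node e → W) (S : Set (Node e)) : Prop :=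
  ∃ C : Set (Node e), C.Countable ∧ S ⊆ ⋃ t ∈ C, N σ t (z t)

theorem Cov.mono {σ : Bool} {z : Node e → W} {S S' : Set (Node e)} (h : Cov σ z S)
    (h' : S' ⊆ S) : Cov σ z S' := by
  obtain ⟨C, h1, h2⟩ := h
  exact ⟨C, h1, h'.trans h2⟩

theorem cov_countable {σ : Bool} {z : Node e → W} (hz : ∀ t, z t < t.ht) {S : Set (Node e)}
    (hS : S.Countable) : Cov σ z S :=
  ⟨S, hS, fun t ht => mem_biUnion ht (self_mem_N σ t (hz t))⟩

theorem cov_biUnion {ι : Type} {σ : Bool} {z : Node e → W} {I : Set ι} (hI : I.Countable)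
    {S : ι → Set (Node e)} (hS : ∀ i ∈ I, Cov σ z (S i)) : Cov σ z (⋃ i ∈ I, S i) := by
  choose! C h1 h2 using hS
  refine ⟨⋃ i ∈ I, C i, hI.biUnion h1, ?_⟩
  refine iUnion₂_subset fun i hi => (h2 i hi).trans ?_
  refine iUnion₂_subset fun t ht => ?_
  exact fun r hr => mem_biUnion (mem_biUnion hi ht) hr

theorem Cov.union {σ : Bool} {z : Node e → W} {S S' : Set (Node e)} (h : Cov σ z S)
    (h' : Cov σ z S') : Cov σ z (S ∪ S') := by
  obtain ⟨C, h1, h2⟩ := h
  obtain ⟨C', h1', h2'⟩ := h'
  refine ⟨C ∪ C', h1.union h1', union_subset ?_ ?_⟩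
  · exact h2.trans (biUnion_subset_biUnion_left subset_union_left)
  · exact h2'.trans (biUnion_subset_biUnion_left subset_union_right)

variable [WellFoundedLT W]

/-- The covering lemma. -/
theorem cover (hc : ∀ a : W, (Iio a).Countable) (hu : ¬ (univ : Set W).Countable)
    (hfin : ∀ a k, {b | b < a ∧ e a b = k}.Finite)
    (he : ∀ a b, b < a → {c | c < b ∧ e a c ≠ e b c}.Finite)
    (σ : Bool) (z : Node e → W) (hz : ∀ t, z t < t.ht) : Cov σ z univ := by
  classical
  by_contra hcon
  -- bad nodes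
  let B : Set (Node e) := {s | ¬ Cov σ z {r | Le s r}}
  have hdown : ∀ s t : Node e, Le s t → t ∈ B → s ∈ B := by
    intro s t hst ht hcov
    exact ht (hcov.mono fun r hr => hst.trans hr)
  have hext0 : ∀ d : W, (∃ c, c < d) → ∃ t ∈ B, t.ht = d := by
    intro d hd
    by_contra hno
    push Not at hno
    apply hcon
    have h1 : Cov σ z (⋃ t ∈ {t : Node e | t.ht = d}, {r | Le t r}) := by
      refine cov_biUnion (countable_level hc he d) fun t ht => ?_
      by_contra h
      exact hno t h ht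
    refine ((cov_countable hz (countable_le hc he d)).union h1).mono fun r _ => ?_
    rcases le_total r.ht d with h | h
    · exact Or.inl h
    · exact Or.inr (mem_biUnion (show res r d h hd ∈ {t : Node e | t.ht = d} from rfl)
        (res_le r d h hd))
  have hext : ∀ s ∈ B, ∀ d : W, s.ht ≤ d → ∃ t ∈ B, t.ht = d ∧ Le s t := by
    intro s hs d hd
    have hd' : ∃ c, c < d := by
      obtain ⟨c, hcs⟩ := s.pos
      exact ⟨c, hcs.trans_le hd⟩
    by_contra hno
    push Not at hno
    apply hs
    have h1 : Cov σ z (⋃ t ∈ {t : Node e | t.ht = d ∧ Le s t}, {r | Le t r}) := by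
      refine cov_biUnion ((countable_level hc he d).mono fun t ht => ht.1) fun t ht => ?_
      by_contra h
      exact hno t h ht.1 ht.2
    refine ((cov_countable hz (countable_le hc he d)).union h1).mono fun r hr => ?_
    rcases le_total r.ht d with h | h
    · exact Or.inl h
    · refine Or.inr (mem_biUnion (show res r d h hd' ∈ {t : Node e | t.ht = d ∧ Le s t} from
        ⟨rfl, le_res hr d h hd' hd⟩) (res_le r d h hd'))
  -- no rightmost branch
  have hnomax : ∀ s ∈ B, ∃ d, s.ht ≤ d ∧ ∀ t ∈ B, t.ht = d → Le s t →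
      ∃ v ∈ B, v.ht = d ∧ Le s v ∧ R σ t v := by
    intro s hs
    by_contra hno
    push Not at hno
    choose m hmB hmh hms hmax using hno
    have hcoh : ∀ d d' (hd : s.ht ≤ d) (hd' : s.ht ≤ d') (_ : d ≤ d'),
        Le (m d hd) (m d' hd') := by
      intro d d' hd hd' hdd
      have hp : ∃ c, c < d := by
        obtain ⟨c, hcs⟩ := s.pos
        exact ⟨c, hcs.trans_le hd⟩
      have hle : d ≤ (m d' hd').ht := by rw [hmh]; exact hdd
      set r := res (m d' hd') d hle hp with hr
      have hrB : r ∈ B := hdown _ _ (res_le _ _ _ _) (hmB d' hd')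
      have hrs : Le s r := le_res (hms d' hd') d hle hp hd
      have h1 : ¬ R σ (m d hd) r := hmax d hd r hrB rfl hrs
      obtain ⟨t', ht'B, ht'h, ht'le⟩ := hext (m d hd) (hmB d hd) d' (by rw [hmh]; exact hdd)
      have h2 : ¬ R σ (m d' hd') t' :=
        hmax d' hd' t' ht'B ht'h ((hms d hd).trans ht'le)
      have hrle : Le r (m d' hd') := res_le _ _ _ _
      rcases cases4 σ (m d hd) r with h | h | h | h
      · exact h.trans hrle
      · have : m d hd = r := node_eq (by rw [hmh]; rfl)
          (fun c hc => (h.2 c (by rw [hmh] at hc; exact hc)).symm)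
        rw [this]
        exact hrle
      · exact absurd ((h.ext_left hrle).ext_right ht'le) h2
      · exact absurd h h1
    refine no_branch (e := e) hc hu hfin
      (fun c => if h : ∃ d, c < d ∧ s.ht ≤ d then (m h.choose h.choose_spec.2).fn c else 0)
      s.ht ?_
    intro d hd
    refine ⟨m d hd, hmh d hd, fun c hcd => ?_⟩
    have hex : ∃ d, c < d ∧ s.ht ≤ d := ⟨d, hcd, hd⟩
    simp only [hex, dif_pos]
    have h1 := hex.choose_spec
    rcases le_total d hex.choose with h2 | h2
    · exact ((hcoh d _ hd h1.2 h2).2 c (by rw [hmh]; exact hcd)).symm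
    · exact (hcoh _ d h1.2 hd h2).2 c (by rw [hmh]; exact h1.1)
  have hne : Nonempty W := by
    by_contra h
    rw [not_nonempty_iff] at h
    exact hu (countable_univ_iff.2 inferInstance)
  choose! η hη1 hη2 using hnomax
  -- closure point
  have hg : ∀ d : W, ∃ g, d < g ∧ ∀ s ∈ B, s.ht ≤ d → η s < g := by
    intro d
    obtain ⟨b, hb⟩ := bdd_of_countable hc hu
      (((countable_le hc he d).image η).insert d)
    refine ⟨b, hb d (mem_insert _ _), fun s _ hsd => ?_⟩
    exact hb _ (mem_insert_of_mem _ ⟨s, hsd, rfl⟩)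
  choose g hg1 hg2 using hg
  obtain ⟨w0⟩ := hne
  let d : ℕ → W := fun k => g^[k + 1] w0
  have hd1 : ∀ k, d (k + 1) = g (d k) := fun k => by
    simp only [d]
    rw [Function.iterate_succ_apply']
  have hdlt : ∀ k, d k < d (k + 1) := fun k => by
    rw [hd1]
    exact hg1 _
  have hd0 : ∀ k, w0 < d k := by
    intro k
    induction k with
    | zero => exact hg1 w0
    | succ k ih => exact ih.trans (hdlt k)
  have hdne : {x | ∀ k, d k < x}.Nonempty := by
    obtain ⟨b, hb⟩ := bdd_of_countable hc hu (countable_range d)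
    exact ⟨b, fun k => hb _ ⟨k, rfl⟩⟩
  obtain ⟨δ, hδ1, hδ2⟩ := WellFounded.has_min (wellFounded_lt (α := W)) _ hdne
  have hδ1' : ∀ k, d k < δ := hδ1
  have hδ3 : ∀ c, c < δ → ∃ k, c ≤ d k := by
    intro c hcδ
    by_contra hcon2
    push Not at hcon2
    exact hδ2 c hcon2 hcδ
  obtain ⟨t, htB, hth⟩ := hext0 δ ⟨w0, (hd0 0).trans (hδ1' 0)⟩
  obtain ⟨k, hk⟩ := hδ3 (z t) (hth ▸ hz t)
  have hp : ∃ c, c < d (k + 1) := ⟨w0, hd0 _⟩
  have hle1 : d (k + 1) ≤ t.ht := by rw [hth]; exact (hδ1' _).le
  set s := res t (d (k + 1)) hle1 hp with hs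
  have hsB : s ∈ B := hdown _ _ (res_le _ _ _ _) htB
  have hηlt : η s < δ := by
    have := hg2 (d (k + 1)) s hsB le_rfl
    rw [← hd1] at this
    exact this.trans (hδ1' _)
  have hp2 : ∃ c, c < η s := by
    obtain ⟨c, hc1⟩ := s.pos
    exact ⟨c, hc1.trans_le (hη1 s hsB)⟩
  have hle2 : η s ≤ t.ht := by rw [hth]; exact hηlt.le
  obtain ⟨v, hvB, hvh, hsv, hRv⟩ := hη2 s hsB (res t (η s) hle2 hp2)
    (hdown _ _ (res_le _ _ _ _) htB) rfl (le_res (res_le _ _ _ _) _ hle2 hp2 (hη1 s hsB))
  have hRt : R σ t v := hRv.ext_left (res_le _ _ _ _)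
  apply hvB
  refine ⟨{t}, countable_singleton t, fun r hr => ?_⟩
  refine mem_biUnion (mem_singleton t) ?_
  have hsr : Le s r := hsv.trans hr
  have hzs : z t < s.ht := lt_of_le_of_lt hk (hdlt k)
  refine ⟨hzs.trans_le hsr.1, fun c hcz => ?_, Or.inr (hRt.ext_right hr)⟩
  rw [hsr.2 c (hcz.trans_lt hzs)]
  exact ((res_le t (d (k + 1)) hle1 hp).2 c (hcz.trans_lt hzs)).symm

end Pool.Agent.H381R3.Roth
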