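import Pool.Agent.H752R3.LuzinProduct

/-!
Basic tools for the product construction when `cov(M)` is the continuum and regular.
-/

set_option autoImplicit false

namespace Pool.Agent.H381R3.LP

open Set Filter Topology Pool.Agent.H752R3
open scoped Cardinal

/-- Fewer than continuum many meagre sets do not cover the Cantor space. -/
def CovC : Prop := ∀ (ι : Type) (M : ι → Set (ℕ → Bool)), #ι < 𝔠 → (∀ i, IsMeagre (M i)) →
  (⋃ i, M i) ≠ univ

/-- `X` is a Luzin set for the continuum. -/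
def SLuzin (X : Set (ℕ → Bool)) : Prop :=
  𝔠 ≤ #X ∧ ∀ M : Set (ℕ → Bool), IsMeagre M → #(X ∩ M : Set (ℕ → Bool)) < 𝔠

theorem lt_of_countable {α : Type} {s : Set α} (hs : s.Countable) : #s < 𝔠 :=
  (Cardinal.mk_le_aleph0_iff.2 hs.to_subtype).trans_lt Cardinal.aleph0_lt_continuum

theorem union_lt (hr : (𝔠 : Cardinal.{0}).IsRegular) {ι α : Type} (hι : #ι < 𝔠)
    (t : ι → Set α) (ht : ∀ i, #(t i) < 𝔠) : #(⋃ i, t i : Set α) < 𝔠 :=
  (Cardinal.card_iUnion_lt_iff_forall_of_isRegular hr hι).2 ht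

theorem luzin_avoid_big (hr : (𝔠 : Cardinal.{0}).IsRegular) {X : Set (ℕ → Bool)}
    (hX : ∀ M : Set (ℕ → Bool), IsMeagre M → #(X ∩ M : Set (ℕ → Bool)) < 𝔠)
    {Q : Set (ℕ → Bool)}
    (hQ : Q.Countable) {θ : (ℕ → Bool) → (ℕ → Bool)} (hθi : Function.Injective θ)
    (hθm : IsMeagre (range θ)) (x : ℕ → Bool) :
    #{w | ∃ q ∈ Q, ∃ x' ∈ X, xorB x' (xorB x (θ w)) = q} < 𝔠 := by
  have h1 : {w | ∃ q ∈ Q, ∃ x' ∈ X, xorB x' (xorB x (θ w)) = q} ⊆
      ⋃ q : Q, θ ⁻¹' (xorB (xorB x q) '' (X ∩ (xorB (xorB x q) ⁻¹' range θ))) := by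
    rintro w ⟨q, hq, x', hx', h⟩
    refine mem_iUnion.2 ⟨⟨q, hq⟩, x', ⟨hx', w, ?_⟩, ?_⟩
    · change θ w = xorB (xorB x q) x'
      subst h
      ext n
      simp only [xorB]
      cases x n <;> cases x' n <;> cases θ w n <;> rfl
    · change xorB (xorB x q) x' = θ w
      subst h
      ext n
      simp only [xorB]
      cases x n <;> cases x' n <;> cases θ w n <;> rfl
  refine (Cardinal.mk_le_mk_of_subset h1).trans_lt (union_lt hr (lt_of_countable hQ) _ fun q => ?_)
  refine (Cardinal.mk_preimage_of_injective _ _ hθi).trans_lt ?_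
  exact Cardinal.mk_image_le.trans_lt (hX _ (isMeagre_xor_preimage _ hθm))

theorem isMeagre_compl_of_open_dense {O : Set (ℕ → Bool)} (h1 : IsOpen O) (h2 : Dense O) :
    IsMeagre Oᶜ := by
  apply IsNowhereDense.isMeagre
  rw [h1.isClosed_compl.isNowhereDense_iff, interior_compl, h2.closure_eq, compl_univ]

/-- The basic step of the product construction. -/
theorem luzin_step_big (hr : (𝔠 : Cardinal.{0}).IsRegular) (hcov : CovC)
    {X : Set (ℕ → Bool)} (hX : SLuzin X) {Q : Set (ℕ → Bool)} (hQ : Q.Countable)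
    {θ : (ℕ → Bool) → (ℕ → Bool)} (hθ : Continuous θ) (hθi : Function.Injective θ)
    (hθm : IsMeagre (range θ)) {ι : Type} (hι : #ι < 𝔠) {O : ι → Set (ℕ → Bool)}
    (hO : ∀ n, IsOpen (O n)) (hOd : ∀ n, Dense (O n)) :
    ∃ w, ∃ x ∈ X, (∀ n, xorB x (θ w) ∈ O n) ∧ ∀ x' ∈ X, xorB x' (xorB x (θ w)) ∉ Q := by
  let ℬ := TopologicalSpace.countableBasis (ℕ → Bool)
  have hℬc : ℬ.Countable := TopologicalSpace.countable_countableBasis _
  have hℬb := TopologicalSpace.isBasis_countableBasis (ℕ → Bool)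
  let T : ι → Set (ℕ → Bool) → Set (ℕ → Bool) := fun n B => {x | ∃ w ∈ B, xorB x (θ w) ∈ O n}
  have hTo : ∀ n B, IsOpen (T n B) := by
    intro n B
    have : T n B = ⋃ w ∈ B, (fun x => xorB x (θ w)) ⁻¹' O n := by
      ext x; simp [T]
    rw [this]
    exact isOpen_biUnion fun w _ =>
      (hO n).preimage (continuous_xorB.comp (Continuous.prodMk_left (θ w)))
  have hTd : ∀ n, ∀ B ∈ ℬ, Dense (T n B) := by
    intro n B hB
    obtain ⟨w, hw⟩ := TopologicalSpace.nonempty_of_mem_countableBasis hB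
    have h1 : xorB (θ w) ⁻¹' O n ⊆ T n B := by
      intro x hx
      refine ⟨w, hw, ?_⟩
      rw [xorB_comm]
      exact hx
    refine Dense.mono h1 ?_
    exact (hOd n).preimage (xorHomeo (θ w)).isOpenMap
  have hmeag : ∀ n, IsMeagre (⋃ B ∈ ℬ, (T n B)ᶜ) := by
    intro n
    apply isMeagre_biUnion hℬc
    intro B hB
    exact isMeagre_compl_of_open_dense (hTo n B) (hTd n B hB)
  obtain ⟨x, hxX, hx⟩ : ∃ x ∈ X, x ∉ ⋃ n : ι, ⋃ B ∈ ℬ, (T n B)ᶜ := by
    by_contra hcon
    push Not at hcon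
    have h1 : #(⋃ n : ι, X ∩ ⋃ B ∈ ℬ, (T n B)ᶜ : Set (ℕ → Bool)) < 𝔠 :=
      union_lt hr hι _ fun n => hX.2 _ (hmeag n)
    have h2 : X ⊆ ⋃ n : ι, X ∩ ⋃ B ∈ ℬ, (T n B)ᶜ := by
      intro x hx
      obtain ⟨n, hn⟩ := mem_iUnion.1 (hcon x hx)
      exact mem_iUnion.2 ⟨n, hx, hn⟩
    exact absurd (hX.1.trans (Cardinal.mk_le_mk_of_subset h2)) (not_le.2 h1)
  have hxT : ∀ n, ∀ B ∈ ℬ, x ∈ T n B := by
    intro n B hB
    by_contra hcon
    exact hx (mem_iUnion.2 ⟨n, mem_iUnion₂.2 ⟨B, hB, hcon⟩⟩)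
  have hbad := luzin_avoid_big hr hX.2 hQ hθi hθm x
  have hSd : ∀ n, Dense {w | xorB x (θ w) ∈ O n} := by
    intro n
    rw [hℬb.dense_iff]
    intro B hB _
    obtain ⟨w, hw, hw'⟩ := hxT n B hB
    exact ⟨w, hw, hw'⟩
  have hSo : ∀ n, IsOpen {w | xorB x (θ w) ∈ O n} := fun n =>
    (hO n).preimage ((continuous_xorB.comp (Continuous.prodMk_right x)).comp hθ)
  set Bad : Set (ℕ → Bool) := {w | ∃ q ∈ Q, ∃ x' ∈ X, xorB x' (xorB x (θ w)) = q} with hBad
  have hcard : #(ι ⊕ Bad) < 𝔠 := by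
    rw [Cardinal.mk_sum, Cardinal.lift_id, Cardinal.lift_id]
    exact Cardinal.add_lt_of_lt Cardinal.aleph0_le_continuum hι hbad
  have hne := hcov (ι ⊕ Bad) (Sum.elim (fun n => {w | xorB x (θ w) ∈ O n}ᶜ) fun w => {(w : ℕ → Bool)})
    hcard (by
      rintro (n | w)
      · exact isMeagre_compl_of_open_dense (hSo n) (hSd n)
      · exact (isNowhereDense_singleton_cantor (w : ℕ → Bool)).isMeagre)
  obtain ⟨w, hw⟩ := (ne_univ_iff_exists_notMem _).1 hne
  refine ⟨w, x, hxX, fun n => ?_, fun x' hx' hq => ?_⟩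
  · by_contra hcon
    exact hw (mem_iUnion.2 ⟨Sum.inl n, hcon⟩)
  · exact hw (mem_iUnion.2 ⟨Sum.inr ⟨w, _, hq, x', hx', rfl⟩, rfl⟩)

/-- A countable dense set which stays away from the finite modifications of `X`. -/
theorem exists_dense_avoid_big (hr : (𝔠 : Cardinal.{0}).IsRegular) {X : Set (ℕ → Bool)}
    (hX : ∀ M : Set (ℕ → Bool), IsMeagre M → #(X ∩ M : Set (ℕ → Bool)) < 𝔠) :
    ∃ D : Set (ℕ → Bool), D.Countable ∧ Dense D ∧ ∀ d ∈ D, ∀ x ∈ X, ¬ FinSupp (xorB x d) := by
  have h1 : ∀ l : List Bool, ∃ d ∈ CylB l, ∀ x ∈ X, ¬ FinSupp (xorB x d) := by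
    intro l
    let θ : (ℕ → Bool) → (ℕ → Bool) := fun w i =>
      if i < l.length then l.getD i false else
        if (i - l.length) % 2 = 0 then w ((i - l.length) / 2) else true
    have hθ : Continuous θ := by
      apply continuous_pi
      intro i
      by_cases h1 : i < l.length
      · simp only [θ, h1, if_true]; exact continuous_const
      · by_cases h2 : (i - l.length) % 2 = 0
        · simp only [θ, h1, h2, if_true, if_false]
          exact continuous_apply _
        · simp only [θ, h1, h2, if_false]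
          exact continuous_const
    have hθi : Function.Injective θ := by
      intro w w' h
      ext n
      have := congrFun h (l.length + 2 * n)
      have h1 : ¬ (l.length + 2 * n < l.length) := by omega
      have h2 : (l.length + 2 * n - l.length) % 2 = 0 := by omega
      have h3 : (l.length + 2 * n - l.length) / 2 = n := by omega
      simpa only [θ, h1, h2, h3, if_true, if_false] using this
    have hθf : ∀ w, ¬ FinSupp (θ w) := by
      rintro w ⟨k, hk⟩
      have := hk (l.length + 2 * k + 1) (by omega)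
      have h1 : ¬ (l.length + 2 * k + 1 < l.length) := by omega
      have h2 : ¬ ((l.length + 2 * k + 1 - l.length) % 2 = 0) := by omega
      simp only [θ, h1, h2, if_false] at this
      exact Bool.noConfusion this
    have hc := luzin_avoid_big hr hX countable_finSupp hθi
      (isMeagre_range_of_not_finSupp hθ hθf) (fun _ => false)
    obtain ⟨w, hw⟩ : ∃ w, w ∉ {w | ∃ q ∈ {z : ℕ → Bool | FinSupp z}, ∃ x' ∈ X,
        xorB x' (xorB (fun _ => false) (θ w)) = q} := by
      by_contra hcon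
      push Not at hcon
      rw [eq_univ_of_forall hcon, Cardinal.mk_univ] at hc
      have : #(ℕ → Bool) = 𝔠 := by simp
      rw [this] at hc
      exact lt_irrefl _ hc
    have h0 : xorB (fun _ => false) (θ w) = θ w := by ext n; simp [xorB]
    refine ⟨θ w, ?_, fun x hx hf => hw ⟨_, hf, x, hx, by rw [h0]⟩⟩
    intro i hi
    simp only [θ, hi, if_true]
  choose d hd1 hd2 using h1
  refine ⟨range d, Set.countable_range d, ?_, ?_⟩
  · rw [dense_iff_inter_open]
    rintro U hU ⟨x, hx⟩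
    rw [isOpen_pi_iff] at hU
    obtain ⟨I, u, hu, hsub⟩ := hU x hx
    obtain ⟨L, hL⟩ : ∃ L, ∀ i ∈ I, i < L :=
      ⟨I.sup id + 1, fun i hi => Nat.lt_succ_of_le (Finset.le_sup (f := id) hi)⟩
    refine ⟨d (List.ofFn fun i : Fin L => x i), hsub ?_, ⟨_, rfl⟩⟩
    intro i hi
    have hiL : i < L := hL i hi
    have h1 := hd1 (List.ofFn fun i : Fin L => x i) i (by rw [List.length_ofFn]; exact hiL)
    have h2 : (List.ofFn fun i : Fin L => x i).getD i false = x i := by
      simp [List.getD_eq_getElem?_getD, hiL]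
    rw [h1, h2]
    exact (hu i hi).2
  · rintro _ ⟨l, rfl⟩ x hx
    exact hd2 l x hx

/-- The finite subsets of a small set are few. -/
theorem finite_subsets_lt {A : Set (ℕ → Bool)} (hA : #A < 𝔠) :
    #{F : Set (ℕ → Bool) | F.Finite ∧ F ⊆ A} < 𝔠 := by
  classical
  have h1 : #{F : Set (ℕ → Bool) | F.Finite ∧ F ⊆ A} ≤ #(Finset A) := by
    refine Cardinal.mk_le_of_surjective (f := fun s : Finset A =>
      (⟨Subtype.val '' (s : Set A), (s.finite_toSet.image _), by
        rintro _ ⟨a, -, rfl⟩; exact a.2⟩ : {F : Set (ℕ → Bool) | F.Finite ∧ F ⊆ A})) ?_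
    rintro ⟨F, hF, hFA⟩
    refine ⟨(hF.preimage (Subtype.val_injective.injOn (s := Subtype.val ⁻¹' F))).toFinset, ?_⟩
    apply Subtype.ext
    simp only [Set.Finite.coe_toFinset]
    rw [Subtype.image_preimage_coe]
    exact inter_eq_right.2 hFA
  refine h1.trans_lt ?_
  rcases lt_or_ge #A ℵ₀ with h | h
  · have : Finite A := Cardinal.lt_aleph0_iff_finite.1 h
    have : Countable (Finset A) := inferInstance
    exact (Cardinal.mk_le_aleph0_iff.2 this).trans_lt Cardinal.aleph0_lt_continuum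
  · have : Infinite A := Cardinal.infinite_iff.2 h
    rw [Cardinal.mk_finset_of_infinite]
    exact hA

/-- Sets with fewer than `cov(M)` points have the selection property. -/
theorem select_small (hcov : CovC) {A : Set (ℕ → Bool)} (hA : #A < 𝔠)
    (v : ℕ → ℕ → Finset (List Bool))
    (hv : ∀ F : Set (ℕ → Bool), F.Finite → F ⊆ A → ∀ m, ∃ j, F ⊆ Clop (v m j)) :
    ∃ f : ℕ → ℕ, ∀ F : Set (ℕ → Bool), F.Finite → F ⊆ A → ∃ m, F ⊆ Clop (v m (f m)) := by
  classical
  -- the function coded by `z`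
  let fn : (ℕ → Bool) → ℕ → ℕ := fun z m =>
    if h : ∃ j, z (Nat.pair m j) = true then Nat.find h else 0
  let N : {F : Set (ℕ → Bool) | F.Finite ∧ F ⊆ A} → Set (ℕ → Bool) := fun F =>
    {z | ∀ m, ¬ (F : Set (ℕ → Bool)) ⊆ Clop (v m (fn z m))}
  have hN : ∀ F, IsMeagre (N F) := by
    rintro ⟨F, hF, hFA⟩
    apply IsNowhereDense.isMeagre
    rw [IsNowhereDense, eq_empty_iff_forall_notMem]
    intro z hz
    have hz1 := isOpen_interior (s := closure (N ⟨F, hF, hFA⟩))
    rw [isOpen_pi_iff] at hz1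
    obtain ⟨I, u, hu, hsub⟩ := hz1 z hz
    obtain ⟨L, hL⟩ : ∃ L, ∀ i ∈ I, i < L :=
      ⟨I.sup id + 1, fun i hi => Nat.lt_succ_of_le (Finset.le_sup (f := id) hi)⟩
    obtain ⟨j, hj⟩ := hv F hF hFA L
    -- modify `z` at the positions `pair L i`, `i ≤ j`
    let z' : ℕ → Bool := fun n => if (Nat.unpair n).1 = L ∧ (Nat.unpair n).2 ≤ j then
      decide ((Nat.unpair n).2 = j) else z n
    have hz' : z' ∈ closure (N ⟨F, hF, hFA⟩) := by
      apply interior_subset
      apply hsub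
      intro i hi
      have h1 : ¬ ((Nat.unpair i).1 = L ∧ (Nat.unpair i).2 ≤ j) := by
        rintro ⟨h1, -⟩
        have h2 := hL i hi
        have h3 := Nat.unpair_left_le i
        omega
      simp only [z', h1, if_false]
      exact (hu i hi).2
    have hop : IsOpen {y : ℕ → Bool | ∀ i ≤ j, y (Nat.pair L i) = decide (i = j)} := by
      have : {y : ℕ → Bool | ∀ i ≤ j, y (Nat.pair L i) = decide (i = j)} =
          ⋂ i ∈ Finset.range (j + 1), {y : ℕ → Bool | y (Nat.pair L i) = decide (i = j)} := by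
        ext y
        simp
      rw [this]
      apply isOpen_biInter_finset
      intro i _
      exact (isOpen_discrete ({decide (i = j)} : Set Bool)).preimage
        (continuous_apply (Nat.pair L i) : Continuous fun x : ℕ → Bool => x (Nat.pair L i))
    obtain ⟨y, hy1, hy2⟩ := mem_closure_iff.1 hz' _ hop (by
      intro i hi
      simp [z', hi])
    apply hy2 L
    have h1 : ∃ i, y (Nat.pair L i) = true := ⟨j, by rw [hy1 j le_rfl]; simp⟩
    have h2 : fn y L = j := by
      have h3 : fn y L = Nat.find h1 := dif_pos h1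
      rw [h3, Nat.find_eq_iff]
      refine ⟨by rw [hy1 j le_rfl]; simp, fun i hi => ?_⟩
      rw [hy1 i hi.le]
      simp [hi.ne]
    rw [h2]
    exact hj
  have hne := hcov _ N (finite_subsets_lt hA) hN
  obtain ⟨z, hz⟩ := (ne_univ_iff_exists_notMem _).1 hne
  refine ⟨fn z, fun F hF hFA => ?_⟩
  by_contra hcon
  push Not at hcon
  exact hz (mem_iUnion.2 ⟨⟨F, hF, hFA⟩, hcon⟩)

end Pool.Agent.H381R3.LP
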