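import Pool.Agent.H381R3.LPKBasics

/-!
If `cov(M) = 𝔡` is regular, then for every `cov(M)`-Luzin set `X` there is a set `Y` with all
finite powers Rothberger and `X × Y` not Menger.
-/

set_option autoImplicit false

namespace Pool.Agent.H381R3.LP

open Set Filter Topology Cardinal Pool.Agent.H752R3

/-- The well-order of type `κ`. -/
abbrev KO (κ : Cardinal.{0}) : Type := κ.ord.ToType

theorem mk_Iio_KO {κ : Cardinal.{0}} (a : KO κ) : #(Set.Iio a) < κ := by
  simpa using Cardinal.mk_Iio_lt a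

theorem mk_Iic_KO {κ : Cardinal.{0}} (h0 : ℵ₀ < κ) (a : KO κ) : #(Set.Iic a) < κ := by
  rw [← Set.Iio_insert]
  refine (Cardinal.mk_insert_le).trans_lt ?_
  exact Cardinal.add_lt_of_lt h0.le (mk_Iio_KO a) (Cardinal.one_lt_aleph0.trans h0)

theorem exists_above {κ : Cardinal.{0}} (hr : κ.IsRegular) (h0 : ℵ₀ < κ) {ι : Type}
    (hι : #ι < κ) (g : ι → KO κ) : ∃ b, ∀ i, g i < b := by
  by_contra hcon
  push Not at hcon
  have h1 : (⋃ i, Set.Iic (g i)) = (Set.univ : Set (KO κ)) := by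
    rw [eq_univ_iff_forall]
    intro b
    obtain ⟨i, hi⟩ := hcon b
    exact mem_iUnion.2 ⟨i, hi⟩
  have h2 := unionK_lt hr hι (fun i => Set.Iic (g i)) fun i => mk_Iic_KO h0 _
  rw [h1, Cardinal.mk_univ, Cardinal.mk_ord_toType] at h2
  exact lt_irrefl _ h2

/-- The points which agree up to `g n` with one of the first points `d 0, …, d n`. -/
def Near (d : ℕ → ℕ → Bool) (g : ℕ → ℕ) (n : ℕ) : Set (ℕ → Bool) :=
  {y | ∃ i ≤ n, ∀ t < g n, y t = d i t}

theorem isOpen_agree (z : ℕ → Bool) (L : ℕ) : IsOpen {y : ℕ → Bool | ∀ t < L, y t = z t} := by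
  have : {y : ℕ → Bool | ∀ t < L, y t = z t} =
      ⋂ t ∈ Finset.range L, {y : ℕ → Bool | y t = z t} := by
    ext y; simp
  rw [this]
  apply isOpen_biInter_finset
  intro t _
  exact (isOpen_discrete ({z t} : Set Bool)).preimage
    (continuous_apply t : Continuous fun x : ℕ → Bool => x t)

theorem isOpen_Near (d : ℕ → ℕ → Bool) (g : ℕ → ℕ) (n : ℕ) : IsOpen (Near d g n) := by
  have : Near d g n = ⋃ i ∈ Set.Iic n, {y : ℕ → Bool | ∀ t < g n, y t = d i t} := by
    ext y; simp [Near]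
  rw [this]
  exact isOpen_biUnion fun i _ => isOpen_agree _ _

/-- The set of indices at which all the recorded points are near. -/
def Tr {K : Type} (d : ℕ → ℕ → Bool) (e : K → ℕ → ℕ) (Y : K → ℕ → Bool)
    (S : Finset (K × K)) : Set ℕ :=
  {n | ∀ p ∈ S, Y p.1 ∈ Near d (e p.2) n}

theorem luzin_family {κ : Cardinal.{0}} (hr : κ.IsRegular) (h0 : ℵ₀ < κ) (hcov : CovK κ)
    {X : Set (ℕ → Bool)} (hX : KLuzin κ X) (e : KO κ → ℕ → ℕ) (d : ℕ → ℕ → Bool)
    (hd : Dense (range d)) :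
    ∃ Y : KO κ → ℕ → Bool, ∀ β, (∀ x ∈ X, ¬ FinSupp (xorB x (Y β))) ∧
      (∃ x ∈ X, ∃ f : ℕ → ℕ, (∀ n, e β n ≤ f n) ∧ xorB x (Y β) = chi f) ∧
      (∀ i, Y β ≠ d i) ∧
      ∀ S : Finset (KO κ × KO κ), (∀ p ∈ S, p.1 < β ∧ p.2 ≤ β) → (Tr d e Y S).Infinite →
        ∀ F : Finset (KO κ), (∀ c ∈ F, c ≤ β) →
          {n | n ∈ Tr d e Y S ∧ ∀ c ∈ F, Y β ∈ Near d (e c) n}.Infinite := by
  classical
  let P : KO κ → (KO κ → ℕ → Bool) → (ℕ → Bool) → Prop := fun β prev y =>
    (∀ x ∈ X, ¬ FinSupp (xorB x y)) ∧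
    (∃ x ∈ X, ∃ f : ℕ → ℕ, (∀ n, e β n ≤ f n) ∧ xorB x y = chi f) ∧
    (∀ i, y ≠ d i) ∧
    ∀ S : Finset (KO κ × KO κ), (∀ p ∈ S, p.1 < β ∧ p.2 ≤ β) → (Tr d e prev S).Infinite →
        ∀ F : Finset (KO κ), (∀ c ∈ F, c ≤ β) →
          {n | n ∈ Tr d e prev S ∧ ∀ c ∈ F, y ∈ Near d (e c) n}.Infinite
  obtain ⟨Y, hY⟩ := exists_transfinite P (by
    intro β prev
    let ι : Type := ({S : Finset (KO κ × KO κ) // ∀ p ∈ S, p ∈ Set.Iio β ×ˢ Set.Iic β} ×
      {F : Finset (KO κ) // ∀ c ∈ F, c ∈ Set.Iic β}) × ℕ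
    have hcard : #(ι ⊕ ℕ) < κ := by
      have h1 : #(Set.Iio β ×ˢ Set.Iic β : Set (KO κ × KO κ)) < κ := by
        rw [Cardinal.mk_setProd]
        exact Cardinal.mul_lt_of_lt h0.le (mk_Iio_KO β) (mk_Iic_KO h0 β)
      have h2 := finset_sub_lt h0 _ h1
      have h3 := finset_sub_lt h0 _ (mk_Iic_KO h0 β)
      rw [Cardinal.mk_sum, Cardinal.lift_id, Cardinal.lift_id]
      refine Cardinal.add_lt_of_lt h0.le ?_ (by simpa using h0)
      rw [Cardinal.mk_prod, Cardinal.lift_id, Cardinal.lift_id]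
      refine Cardinal.mul_lt_of_lt h0.le ?_ (by simpa using h0)
      rw [Cardinal.mk_prod, Cardinal.lift_id, Cardinal.lift_id]
      exact Cardinal.mul_lt_of_lt h0.le h2 h3
    let O : (ι ⊕ ℕ) → Set (ℕ → Bool) := fun o => match o with
      | Sum.inl q => {y | (Tr d e prev q.1.1.1).Infinite → ∃ n, (q.2 ≤ n ∧
          n ∈ Tr d e prev q.1.1.1) ∧ ∀ c ∈ q.1.2.1, y ∈ Near d (e c) n}
      | Sum.inr i => {d i}ᶜ
    have hOo : ∀ o, IsOpen (O o) := by
      rintro (q | i)
      · by_cases h : (Tr d e prev q.1.1.1).Infinite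
        · have : O (Sum.inl q) = ⋃ n, ⋃ (_ : q.2 ≤ n ∧ n ∈ Tr d e prev q.1.1.1),
              ⋂ c ∈ q.1.2.1, Near d (e c) n := by
            ext y
            simp only [O, mem_ofPred_eq, mem_iUnion, mem_iInter]
            constructor
            · intro hy
              obtain ⟨n, h1, h2⟩ := hy h
              exact ⟨n, h1, h2⟩
            · rintro ⟨n, h1, h2⟩ -
              exact ⟨n, h1, h2⟩
          rw [this]
          exact isOpen_iUnion fun n => isOpen_iUnion fun _ =>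
            isOpen_biInter_finset fun c _ => isOpen_Near _ _ _
        · have : O (Sum.inl q) = Set.univ := by
            rw [eq_univ_iff_forall]
            intro y h'
            exact absurd h' h
          rw [this]
          exact isOpen_univ
      · exact isOpen_compl_singleton
    have hOd : ∀ o, Dense (O o) := by
      rintro (q | i)
      · refine Dense.mono ?_ hd
        rintro _ ⟨i, rfl⟩ h
        obtain ⟨n, hn1, hn2⟩ := h.exists_gt (max q.2 i)
        have h3 := le_max_left q.2 i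
        have h4 := le_max_right q.2 i
        exact ⟨n, ⟨by omega, hn1⟩, fun c _ => ⟨i, by omega, fun t _ => rfl⟩⟩
      · have h1 := isNowhereDense_singleton_cantor (d i)
        rw [IsNowhereDense, closure_singleton] at h1
        exact interior_eq_empty_iff_dense_compl.1 h1
    let fw : (ℕ → Bool) → ℕ → ℕ := fun w n => e β n + (w n).toNat
    have hfw : Continuous fw := by
      apply continuous_pi
      intro n
      exact continuous_const.add ((continuous_of_discreteTopology (f := Bool.toNat)).comp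
        (continuous_apply n : Continuous fun x : ℕ → Bool => x n))
    have hfwi : Function.Injective fw := by
      intro w w' h
      ext n
      have h1 : (w n).toNat = (w' n).toNat := by
        have := congrFun h n
        simp only [fw] at this
        omega
      revert h1
      cases w n <;> cases w' n <;> simp
    obtain ⟨w, x, hxX, hxO, hxQ⟩ := luzin_step_k hr h0 hcov hX countable_finSupp
      (θ := fun w => chi (fw w)) (continuous_chi.comp hfw) (chi_injective.comp hfwi)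
      (isMeagre_range_of_not_finSupp (continuous_chi.comp hfw) fun w => not_finSupp_chi _)
      hcard hOo hOd
    refine ⟨xorB x (chi (fw w)), hxQ, ⟨x, hxX, fw w, fun n => Nat.le_add_right _ _,
      xorB_self_cancel _ _⟩, fun i => hxO (Sum.inr i), ?_⟩
    intro S hS hSi F hF
    apply Set.infinite_of_forall_exists_gt
    intro m
    obtain ⟨n, ⟨hn1, hn2⟩, hn3⟩ := hxO (Sum.inl ((⟨S, hS⟩, ⟨F, hF⟩), m + 1)) hSi
    have hn1' : m + 1 ≤ n := hn1
    exact ⟨n, ⟨hn2, hn3⟩, by omega⟩) (by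
    intro β prev prev' y hpp hP
    refine ⟨hP.1, hP.2.1, hP.2.2.1, ?_⟩
    intro S hS hSi F hF
    have hT : Tr d e prev' S = Tr d e prev S := by
      ext n
      constructor
      · intro h p hp
        have := h p hp
        rwa [← hpp p.1 (hS p hp).1] at this
      · intro h p hp
        have := h p hp
        rwa [hpp p.1 (hS p hp).1] at this
    rw [hT] at hSi ⊢
    exact hP.2.2.2 S hS hSi F hF)
  exact ⟨Y, hY⟩

theorem tr_infinite {κ : Cardinal.{0}} {e : KO κ → ℕ → ℕ} {d : ℕ → ℕ → Bool}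
    {Y : KO κ → ℕ → Bool}
    (hY : ∀ β, ∀ S : Finset (KO κ × KO κ), (∀ p ∈ S, p.1 < β ∧ p.2 ≤ β) →
      (Tr d e Y S).Infinite → ∀ F : Finset (KO κ), (∀ c ∈ F, c ≤ β) →
        {n | n ∈ Tr d e Y S ∧ ∀ c ∈ F, Y β ∈ Near d (e c) n}.Infinite)
    (S : Finset (KO κ × KO κ)) (hS : ∀ p ∈ S, p.2 ≤ p.1) : (Tr d e Y S).Infinite := by
  classical
  have hempty : (Tr d e Y ∅).Infinite := by
    have : Tr d e Y ∅ = Set.univ := by
      rw [eq_univ_iff_forall]
      intro n p hp
      exact absurd hp (Finset.notMem_empty p)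
    rw [this]
    exact Set.infinite_univ
  have key : ∀ β, ∀ S : Finset (KO κ × KO κ), (∀ p ∈ S, p.2 ≤ p.1) → (∀ p ∈ S, p.1 ≤ β) →
      (Tr d e Y S).Infinite := by
    intro β
    induction β using WellFoundedLT.induction with
    | ind β ih =>
      intro S hS hSβ
      have h1 : (Tr d e Y (S.filter fun p => p.1 < β)).Infinite := by
        rcases (S.filter fun p => p.1 < β).eq_empty_or_nonempty with h | h
        · rw [h]; exact hempty
        · obtain ⟨p0, hp0, hmax⟩ := Finset.exists_max_image _ Prod.fst h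
          exact ih p0.1 (Finset.mem_filter.1 hp0).2 _
            (fun p hp => hS p (Finset.mem_filter.1 hp).1) hmax
      refine (hY β _ (fun p hp => ?_) h1 ((S.filter fun p => p.1 = β).image Prod.snd)
        (fun c hc => ?_)).mono ?_
      · have h2 := Finset.mem_filter.1 hp
        exact ⟨h2.2, (hS p h2.1).trans h2.2.le⟩
      · obtain ⟨p, hp, rfl⟩ := Finset.mem_image.1 hc
        have h2 := Finset.mem_filter.1 hp
        exact (hS p h2.1).trans h2.2.le
      · rintro n ⟨hn1, hn2⟩ p hp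
        rcases (hSβ p hp).lt_or_eq with h | h
        · exact hn1 p (Finset.mem_filter.2 ⟨hp, h⟩)
        · rw [h]
          exact hn2 p.2 (Finset.mem_image.2 ⟨p, Finset.mem_filter.2 ⟨hp, h⟩, rfl⟩)
  rcases S.eq_empty_or_nonempty with h | h
  · rw [h]; exact hempty
  · obtain ⟨p0, hp0, hmax⟩ := Finset.exists_max_image _ Prod.fst h
    exact key p0.1 S hS hmax

/-- Fewer than `κ` functions are met infinitely often by a single one. -/
theorem exists_generic_fn {κ : Cardinal.{0}} (h0 : ℵ₀ < κ) (hcov : CovK κ) {ι : Type}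
    (hι : #ι < κ) (j : ι → ℕ → ℕ) : ∃ f : ℕ → ℕ, ∀ i k, ∃ m, k ≤ m ∧ f m = j i m := by
  classical
  -- the function coded by `z`
  let fn : (ℕ → Bool) → ℕ → ℕ := fun z m =>
    if h : ∃ j, z (Nat.pair m j) = true then Nat.find h else 0
  let N : ι × ℕ → Set (ℕ → Bool) := fun p => {z | ∀ m, p.2 ≤ m → fn z m ≠ j p.1 m}
  have hN : ∀ p, IsMeagre (N p) := by
    rintro ⟨i0, k⟩
    apply IsNowhereDense.isMeagre
    rw [IsNowhereDense, eq_empty_iff_forall_notMem]
    intro z hz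
    have hz1 := isOpen_interior (s := closure (N (i0, k)))
    rw [isOpen_pi_iff] at hz1
    obtain ⟨I, u, hu, hsub⟩ := hz1 z hz
    obtain ⟨L, hL, hkL⟩ : ∃ L, (∀ i ∈ I, i < L) ∧ k ≤ L := by
      refine ⟨I.sup id + 1 + k, fun i hi => ?_, by omega⟩
      have h1 : i ≤ I.sup id := Finset.le_sup (f := id) hi
      omega
    -- modify `z` at the positions `pair L i`, `i ≤ j i0 L`
    let z' : ℕ → Bool := fun n => if (Nat.unpair n).1 = L ∧ (Nat.unpair n).2 ≤ j i0 L then
      decide ((Nat.unpair n).2 = j i0 L) else z n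
    have hz' : z' ∈ closure (N (i0, k)) := by
      apply interior_subset
      apply hsub
      intro i hi
      have h1 : ¬ ((Nat.unpair i).1 = L ∧ (Nat.unpair i).2 ≤ j i0 L) := by
        rintro ⟨h1, -⟩
        have h2 := hL i hi
        have h3 := Nat.unpair_left_le i
        omega
      simp only [z', h1, if_false]
      exact (hu i hi).2
    have hop : IsOpen {y : ℕ → Bool | ∀ i ≤ j i0 L, y (Nat.pair L i) = decide (i = j i0 L)} := by
      have : {y : ℕ → Bool | ∀ i ≤ j i0 L, y (Nat.pair L i) = decide (i = j i0 L)} =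
          ⋂ i ∈ Finset.range (j i0 L + 1),
            {y : ℕ → Bool | y (Nat.pair L i) = decide (i = j i0 L)} := by
        ext y
        simp
      rw [this]
      apply isOpen_biInter_finset
      intro i _
      exact (isOpen_discrete ({decide (i = j i0 L)} : Set Bool)).preimage
        (continuous_apply (Nat.pair L i) : Continuous fun x : ℕ → Bool => x (Nat.pair L i))
    obtain ⟨y, hy1, hy2⟩ := mem_closure_iff.1 hz' _ hop (by
      intro i hi
      simp [z', hi])
    apply hy2 L hkL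
    have h1 : ∃ i, y (Nat.pair L i) = true := ⟨j i0 L, by rw [hy1 _ le_rfl]; simp⟩
    have h3 : fn y L = Nat.find h1 := dif_pos h1
    show fn y L = j i0 L
    rw [h3, Nat.find_eq_iff]
    refine ⟨by rw [hy1 _ le_rfl]; simp, fun i hi => ?_⟩
    rw [hy1 i hi.le]
    simp [hi.ne]
  have hcard : #(ι × ℕ) < κ := by
    rw [Cardinal.mk_prod, Cardinal.lift_id, Cardinal.lift_id]
    exact Cardinal.mul_lt_of_lt h0.le hι (by simpa using h0)
  have hne := hcov _ N hcard hN
  obtain ⟨z, hz⟩ := (ne_univ_iff_exists_notMem _).1 hne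
  refine ⟨fn z, fun i k => ?_⟩
  by_contra hcon
  push Not at hcon
  exact hz (mem_iUnion.2 ⟨(i, k), hcon⟩)

theorem omegaSel_of_tr {κ : Cardinal.{0}} (hr : κ.IsRegular) (h0 : ℵ₀ < κ) (hcov : CovK κ)
    (e : KO κ → ℕ → ℕ) (hdom : ∀ g : ℕ → ℕ, ∃ a, ∀ᶠ n in atTop, g n ≤ e a n)
    (d : ℕ → ℕ → Bool) (Y : KO κ → ℕ → Bool)
    (hTr : ∀ S : Finset (KO κ × KO κ), (∀ p ∈ S, p.2 ≤ p.1) → (Tr d e Y S).Infinite) :
    OmegaSel (range d ∪ range Y) := by
  classical
  intro v hv
  have hT : ∀ (n : ℕ) (E : Finset (KO κ)) (m : ℕ),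
      ∃ j, (Y '' E ∪ d '' Set.Iic m) ⊆ Clop (v (Nat.pair n m) j) := by
    intro n E m
    apply hv
    · exact (E.finite_toSet.image _).union ((Set.finite_Iic m).image _)
    · exact union_subset ((image_subset_range _ _).trans subset_union_right)
        ((image_subset_range _ _).trans subset_union_left)
  choose j hj using hT
  let len : Finset (List Bool) → ℕ := fun C => C.sup List.length
  have hlen : ∀ (C : Finset (List Bool)) (z y : ℕ → Bool), z ∈ Clop C →
      (∀ t < len C, y t = z t) → y ∈ Clop C := by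
    rintro C z y ⟨l, hl, hz⟩ h
    refine ⟨l, hl, fun i hi => ?_⟩
    rw [h i (hi.trans_le (Finset.le_sup (f := List.length) hl))]
    exact hz i hi
  have step : ∀ (n : ℕ) (b : KO κ), ∃ (f : ℕ → ℕ) (c : KO κ), b < c ∧
      ∀ E : Finset (KO κ), (∀ a ∈ E, a ≤ b) → ∃ γ < c, ∀ᶠ l in atTop, ∃ m, l ≤ m ∧
        f m = j n E m ∧ len (v (Nat.pair n m) (j n E m)) ≤ e γ l := by
    intro n b
    have hcE : #{E : Finset (KO κ) // ∀ a ∈ E, a ∈ Set.Iic b} < κ :=
      finset_sub_lt h0 _ (mk_Iic_KO h0 b)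
    obtain ⟨f, hf⟩ := exists_generic_fn h0 hcov hcE fun E => j n E.1
    choose r hr1 hr2 using hf
    have hγ : ∀ E : {E : Finset (KO κ) // ∀ a ∈ E, a ∈ Set.Iic b}, ∃ a, ∀ᶠ l in atTop,
        len (v (Nat.pair n (r E l)) (j n E.1 (r E l))) ≤ e a l := fun E => hdom _
    choose γ hγ using hγ
    obtain ⟨c, hc⟩ := exists_above hr h0
      (ι := {E : Finset (KO κ) // ∀ a ∈ E, a ∈ Set.Iic b} ⊕ Unit) (by
        rw [Cardinal.mk_sum, Cardinal.lift_id, Cardinal.lift_id]
        exact Cardinal.add_lt_of_lt h0.le hcE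
          (by simpa using Cardinal.one_lt_aleph0.trans h0))
      (Sum.elim (fun E => γ E) fun _ => b)
    refine ⟨f, c, hc (Sum.inr ()), fun E hE => ⟨γ ⟨E, hE⟩, hc (Sum.inl ⟨E, hE⟩), ?_⟩⟩
    filter_upwards [hγ ⟨E, hE⟩] with l hl
    exact ⟨r ⟨E, hE⟩ l, hr1 _ _, hr2 _ _, hl⟩
  choose f G hG1 hG2 using step
  have hne : Nonempty (KO κ) := by
    rw [← Cardinal.mk_ne_zero_iff, Cardinal.mk_ord_toType]
    exact (Cardinal.aleph0_pos.trans h0).ne'
  let c : ℕ → KO κ := fun n => Nat.rec (motive := fun _ => KO κ) (Classical.arbitrary (KO κ))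
    (fun k b => G k b) n
  have hcs : ∀ n, c (n + 1) = G n (c n) := fun n => rfl
  have hcm : Monotone c := monotone_nat_of_le_succ fun n => by rw [hcs]; exact (hG1 _ _).le
  refine ⟨fun m => f (Nat.unpair m).1 (c (Nat.unpair m).1) (Nat.unpair m).2, fun F hF hFs => ?_⟩
  have hb : ∀ z : ℕ → Bool, ∃ b, z ∈ range Y → Y b = z := by
    intro z
    by_cases hz : z ∈ range Y
    · obtain ⟨b, hb⟩ := hz
      exact ⟨b, fun _ => hb⟩
    · exact ⟨Classical.arbitrary _, fun h => absurd h hz⟩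
  choose b hb using hb
  have hi : ∀ z : ℕ → Bool, ∃ i, z ∈ range d → d i = z := by
    intro z
    by_cases hz : z ∈ range d
    · obtain ⟨b, hb⟩ := hz
      exact ⟨b, fun _ => hb⟩
    · exact ⟨0, fun h => absurd h hz⟩
  choose i hi using hi
  let B : Finset (KO κ) := hF.toFinset.image b
  let E : Finset (KO κ) := B.filter fun a => ∃ n, a ≤ c n
  let H : Finset (KO κ) := B.filter fun a => ¬ ∃ n, a ≤ c n
  obtain ⟨N, hN⟩ : ∃ N, ∀ a ∈ E, a ≤ c N := by
    have h1 : ∀ a : KO κ, ∃ n, a ∈ E → a ≤ c n := by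
      intro a
      by_cases ha : a ∈ E
      · obtain ⟨n, hn⟩ := (Finset.mem_filter.1 ha).2
        exact ⟨n, fun _ => hn⟩
      · exact ⟨0, fun h => absurd h ha⟩
    choose n hn using h1
    exact ⟨E.sup n, fun a ha => (hn a ha).trans (hcm (Finset.le_sup ha))⟩
  obtain ⟨γ, hγE, hγ⟩ := hG2 N (c N) E hN
  rw [← hcs] at hγE
  let S : Finset (KO κ × KO κ) := H.image fun h => (h, γ)
  have hS : ∀ p ∈ S, p.2 ≤ p.1 := by
    intro p hp
    obtain ⟨h, h1, rfl⟩ := Finset.mem_image.1 hp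
    have h2 := (Finset.mem_filter.1 h1).2
    push Not at h2
    have h3 : γ ≤ h := (hγE.trans (h2 (N + 1))).le
    exact h3
  obtain ⟨N0, hN0⟩ := eventually_atTop.1 hγ
  obtain ⟨l, hl, hlN⟩ := (hTr S hS).exists_gt (max N0 (hF.toFinset.sup i))
  have hlN0 : N0 ≤ l := (le_max_left _ _).trans hlN.le
  obtain ⟨m, hlm, hfm, hm3⟩ := hN0 l hlN0
  refine ⟨Nat.pair N m, fun z hz => ?_⟩
  simp only [Nat.unpair_pair]
  rw [hfm]
  rcases hFs hz with h | h
  · apply hj N E m
    refine Or.inr ⟨i z, ?_, hi z h⟩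
    exact (((Finset.le_sup (hF.mem_toFinset.2 hz)).trans (le_max_right N0 _)).trans
      hlN.le).trans hlm
  · have hbB : b z ∈ B := Finset.mem_image.2 ⟨z, hF.mem_toFinset.2 hz, rfl⟩
    by_cases hlow : ∃ n, b z ≤ c n
    · apply hj N E m
      exact Or.inl ⟨b z, Finset.mem_coe.2 (Finset.mem_filter.2 ⟨hbB, hlow⟩), hb z h⟩
    · have hbH : b z ∈ H := Finset.mem_filter.2 ⟨hbB, hlow⟩
      obtain ⟨i', hi', h2⟩ := hl (b z, γ) (Finset.mem_image.2 ⟨b z, hbH, rfl⟩)
      apply hlen _ (d i') z (hj N E m (Or.inr ⟨i', le_trans hi' hlm, rfl⟩))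
      intro t ht
      have h6 := h2 t (lt_of_lt_of_le ht hm3)
      have h7 : Y (b z) t = d i' t := h6
      rw [hb z h] at h7
      exact h7

/-- **Main construction, for `cov(M) = 𝔡`.** -/
theorem luzin_product_k {κ : Cardinal.{0}} (hr : κ.IsRegular) (h0 : ℵ₀ < κ) (hκ : κ ≤ 𝔠)
    (hcov : CovK κ) {X : Set (ℕ → Bool)} (hX : KLuzin κ X) (e : KO κ → ℕ → ℕ)
    (hdom : ∀ g : ℕ → ℕ, ∃ a, ∀ᶠ n in atTop, g n ≤ e a n) :
    ∃ Y : Set (ℕ → Bool), Y.Nonempty ∧ OmegaSel Y ∧ ¬ MengerSp (X × Y) := by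
  classical
  obtain ⟨D, hDc, hDd, hDX⟩ := exists_dense_avoid_k hr h0 hκ hX.2
  obtain ⟨d, hdD⟩ := hDc.exists_eq_range hDd.nonempty
  obtain ⟨Y, hY⟩ := luzin_family hr h0 hcov hX e d (hdD ▸ hDd)
  refine ⟨range d ∪ range Y, ⟨d 0, Or.inl ⟨_, rfl⟩⟩, ?_, ?_⟩
  · exact omegaSel_of_tr hr h0 hcov e hdom d Y (tr_infinite fun β => (hY β).2.2.2)
  · -- the product is not Menger
    intro hmenger
    have hnf : ∀ x ∈ X, ∀ y ∈ range d ∪ range Y, ¬ FinSupp (xorB x y) := by
      rintro x hx y (hy | ⟨b, rfl⟩)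
      · exact hDX y (by rw [hdD]; exact hy) x hx
      · exact (hY b).1 x hx
    let V : ℕ → ℕ → Set (X × (range d ∪ range Y : Set (ℕ → Bool))) := fun n k =>
      {z | n < cnt k (xorB z.1 z.2)}
    have hVo : ∀ n k, IsOpen (V n k) := by
      intro n k
      have hc : Continuous fun z : X × (range d ∪ range Y : Set (ℕ → Bool)) =>
          cnt k (xorB z.1 z.2) := (continuous_cnt k).comp (continuous_xorB.comp
            ((continuous_subtype_val.comp continuous_fst).prodMk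
              (continuous_subtype_val.comp continuous_snd)))
      exact (isOpen_discrete (Set.Ioi n)).preimage hc
    obtain ⟨F, hF1, hF2⟩ := hmenger.frequently (fun n => range (V n)) (by
      intro n
      refine ⟨?_, ?_⟩
      · rintro _ ⟨k, rfl⟩
        exact hVo n k
      · rw [eq_univ_iff_forall]
        rintro ⟨⟨x, hx⟩, ⟨y, hy⟩⟩
        obtain ⟨k, hk⟩ := exists_lt_cnt_of_not_finSupp (hnf x hx y hy) n
        exact ⟨_, ⟨k, rfl⟩, hk⟩)
    have hg : ∀ n, ∃ g, ∀ z ∈ ⋃₀ F n, n < cnt g (xorB z.1 z.2) := by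
      intro n
      obtain ⟨E, -, hE2, hE3⟩ : ∃ E ⊆ (Set.univ : Set ℕ), E.Finite ∧ V n '' E = F n := by
        have := Set.exists_subset_image_finite_and (f := V n) (s := Set.univ)
          (p := fun t => t = F n)
        obtain ⟨E', h1, h2, h3⟩ := this.1 ⟨F n, by rw [image_univ]; exact (hF1 n).1,
          (hF1 n).2, rfl⟩
        exact ⟨E', h1, h2, h3⟩
      obtain ⟨g, hg⟩ := hE2.bddAbove
      refine ⟨g, ?_⟩
      rintro z ⟨u, hu, hz⟩
      rw [← hE3] at hu
      obtain ⟨k, hk, rfl⟩ := hu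
      have h1 : n < cnt k (xorB z.1 z.2) := hz
      exact lt_of_lt_of_le h1 (cnt_mono (hg hk) _)
    choose g hg using hg
    obtain ⟨a, ha⟩ := hdom g
    obtain ⟨x, hx, f, hf1, hf2⟩ := (hY a).2.1
    obtain ⟨n, hn, hn'⟩ := ((hF2 (⟨x, hx⟩, ⟨Y a, Or.inr ⟨a, rfl⟩⟩)).and_eventually ha).exists
    have h1 := hg n _ hn
    have h2 : xorB x (Y a) = chi f := hf2
    rw [h2] at h1
    have h3 := le_psum f (le_refl n)
    have h4 := hf1 n
    have h5 : cnt (g n) (chi f) ≤ n := cnt_chi_le (by omega)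
    omega

end Pool.Agent.H381R3.LP
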