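import Pool.Agent.H381R3.LPBasics

/-!
The tools of `LPBasics` for an arbitrary uncountable regular cardinal in place of the continuum.
-/

set_option autoImplicit false

namespace Pool.Agent.H381R3.LP

open Set Filter Topology Pool.Agent.H752R3
open scoped Cardinal

/-- Fewer than `κ` meagre sets do not cover the Cantor space. -/
def CovK (κ : Cardinal.{0}) : Prop := ∀ (ι : Type) (M : ι → Set (ℕ → Bool)), #ι < κ →
  (∀ i, IsMeagre (M i)) → (⋃ i, M i) ≠ univ

/-- `X` is a `κ`-Luzin set. -/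
def KLuzin (κ : Cardinal.{0}) (X : Set (ℕ → Bool)) : Prop :=
  κ ≤ #X ∧ ∀ M : Set (ℕ → Bool), IsMeagre M → #(X ∩ M : Set (ℕ → Bool)) < κ

theorem ltK_of_countable {κ : Cardinal.{0}} (h0 : ℵ₀ < κ) {α : Type} {s : Set α}
    (hs : s.Countable) : #s < κ :=
  (Cardinal.mk_le_aleph0_iff.2 hs.to_subtype).trans_lt h0

theorem unionK_lt {κ : Cardinal.{0}} (hr : κ.IsRegular) {ι α : Type} (hι : #ι < κ)
    (t : ι → Set α) (ht : ∀ i, #(t i) < κ) : #(⋃ i, t i : Set α) < κ :=
  (Cardinal.card_iUnion_lt_iff_forall_of_isRegular hr hι).2 ht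

theorem luzin_avoid_k {κ : Cardinal.{0}} (hr : κ.IsRegular) (h0 : ℵ₀ < κ) {X : Set (ℕ → Bool)}
    (hX : ∀ M : Set (ℕ → Bool), IsMeagre M → #(X ∩ M : Set (ℕ → Bool)) < κ)
    {Q : Set (ℕ → Bool)}
    (hQ : Q.Countable) {θ : (ℕ → Bool) → (ℕ → Bool)} (hθi : Function.Injective θ)
    (hθm : IsMeagre (range θ)) (x : ℕ → Bool) :
    #{w | ∃ q ∈ Q, ∃ x' ∈ X, xorB x' (xorB x (θ w)) = q} < κ := by
  have h1 : {w | ∃ q ∈ Q, ∃ x' ∈ X, xorB x' (xorB x (θ w)) = q} ⊆
      ⋃ q : Q, θ ⁻¹' (xorB (xorB x q) '' (X ∩ (xorB (xorB x q) ⁻¹' range θ))) := by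
    rintro w ⟨q, hq, x', hx', h⟩
    refine mem_iUnion.2 ⟨⟨q, hq⟩, x', ⟨hx', w, ?_⟩, ?_⟩
    · change θ w = xorB (xorB x q) x'
      subst h
      ext n
      simp only [xorB]
      cases x n <;> cases x' n <;> cases θ w n <;> rfl
    · change xorB (xorB x q) x' = θ w
      subst h
      ext n
      simp only [xorB]
      cases x n <;> cases x' n <;> cases θ w n <;> rfl
  refine (Cardinal.mk_le_mk_of_subset h1).trans_lt (unionK_lt hr (ltK_of_countable h0 hQ) _ fun q => ?_)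
  refine (Cardinal.mk_preimage_of_injective _ _ hθi).trans_lt ?_
  exact Cardinal.mk_image_le.trans_lt (hX _ (isMeagre_xor_preimage _ hθm))

/-- The basic step of the product construction. -/
theorem luzin_step_k {κ : Cardinal.{0}} (hr : κ.IsRegular) (h0 : ℵ₀ < κ) (hcov : CovK κ)
    {X : Set (ℕ → Bool)} (hX : KLuzin κ X) {Q : Set (ℕ → Bool)} (hQ : Q.Countable)
    {θ : (ℕ → Bool) → (ℕ → Bool)} (hθ : Continuous θ) (hθi : Function.Injective θ)
    (hθm : IsMeagre (range θ)) {ι : Type} (hι : #ι < κ) {O : ι → Set (ℕ → Bool)}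
    (hO : ∀ n, IsOpen (O n)) (hOd : ∀ n, Dense (O n)) :
    ∃ w, ∃ x ∈ X, (∀ n, xorB x (θ w) ∈ O n) ∧ ∀ x' ∈ X, xorB x' (xorB x (θ w)) ∉ Q := by
  let ℬ := TopologicalSpace.countableBasis (ℕ → Bool)
  have hℬc : ℬ.Countable := TopologicalSpace.countable_countableBasis _
  have hℬb := TopologicalSpace.isBasis_countableBasis (ℕ → Bool)
  let T : ι → Set (ℕ → Bool) → Set (ℕ → Bool) := fun n B => {x | ∃ w ∈ B, xorB x (θ w) ∈ O n}
  have hTo : ∀ n B, IsOpen (T n B) := by
    intro n B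
    have : T n B = ⋃ w ∈ B, (fun x => xorB x (θ w)) ⁻¹' O n := by
      ext x; simp [T]
    rw [this]
    exact isOpen_biUnion fun w _ =>
      (hO n).preimage (continuous_xorB.comp (Continuous.prodMk_left (θ w)))
  have hTd : ∀ n, ∀ B ∈ ℬ, Dense (T n B) := by
    intro n B hB
    obtain ⟨w, hw⟩ := TopologicalSpace.nonempty_of_mem_countableBasis hB
    have h1 : xorB (θ w) ⁻¹' O n ⊆ T n B := by
      intro x hx
      refine ⟨w, hw, ?_⟩
      rw [xorB_comm]
      exact hx
    refine Dense.mono h1 ?_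
    exact (hOd n).preimage (xorHomeo (θ w)).isOpenMap
  have hmeag : ∀ n, IsMeagre (⋃ B ∈ ℬ, (T n B)ᶜ) := by
    intro n
    apply isMeagre_biUnion hℬc
    intro B hB
    exact isMeagre_compl_of_open_dense (hTo n B) (hTd n B hB)
  obtain ⟨x, hxX, hx⟩ : ∃ x ∈ X, x ∉ ⋃ n : ι, ⋃ B ∈ ℬ, (T n B)ᶜ := by
    by_contra hcon
    push Not at hcon
    have h1 : #(⋃ n : ι, X ∩ ⋃ B ∈ ℬ, (T n B)ᶜ : Set (ℕ → Bool)) < κ :=
      unionK_lt hr hι _ fun n => hX.2 _ (hmeag n)
    have h2 : X ⊆ ⋃ n : ι, X ∩ ⋃ B ∈ ℬ, (T n B)ᶜ := by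
      intro x hx
      obtain ⟨n, hn⟩ := mem_iUnion.1 (hcon x hx)
      exact mem_iUnion.2 ⟨n, hx, hn⟩
    exact absurd (hX.1.trans (Cardinal.mk_le_mk_of_subset h2)) (not_le.2 h1)
  have hxT : ∀ n, ∀ B ∈ ℬ, x ∈ T n B := by
    intro n B hB
    by_contra hcon
    exact hx (mem_iUnion.2 ⟨n, mem_iUnion₂.2 ⟨B, hB, hcon⟩⟩)
  have hbad := luzin_avoid_k hr h0 hX.2 hQ hθi hθm x
  have hSd : ∀ n, Dense {w | xorB x (θ w) ∈ O n} := by
    intro n
    rw [hℬb.dense_iff]
    intro B hB _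
    obtain ⟨w, hw, hw'⟩ := hxT n B hB
    exact ⟨w, hw, hw'⟩
  have hSo : ∀ n, IsOpen {w | xorB x (θ w) ∈ O n} := fun n =>
    (hO n).preimage ((continuous_xorB.comp (Continuous.prodMk_right x)).comp hθ)
  set Bad : Set (ℕ → Bool) := {w | ∃ q ∈ Q, ∃ x' ∈ X, xorB x' (xorB x (θ w)) = q} with hBad
  have hcard : #(ι ⊕ Bad) < κ := by
    rw [Cardinal.mk_sum, Cardinal.lift_id, Cardinal.lift_id]
    exact Cardinal.add_lt_of_lt h0.le hι hbad
  have hne := hcov (ι ⊕ Bad) (Sum.elim (fun n => {w | xorB x (θ w) ∈ O n}ᶜ) fun w => {(w : ℕ → Bool)})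
    hcard (by
      rintro (n | w)
      · exact isMeagre_compl_of_open_dense (hSo n) (hSd n)
      · exact (isNowhereDense_singleton_cantor (w : ℕ → Bool)).isMeagre)
  obtain ⟨w, hw⟩ := (ne_univ_iff_exists_notMem _).1 hne
  refine ⟨w, x, hxX, fun n => ?_, fun x' hx' hq => ?_⟩
  · by_contra hcon
    exact hw (mem_iUnion.2 ⟨Sum.inl n, hcon⟩)
  · exact hw (mem_iUnion.2 ⟨Sum.inr ⟨w, _, hq, x', hx', rfl⟩, rfl⟩)

/-- A countable dense set which stays away from the finite modifications of `X`. -/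
theorem exists_dense_avoid_k {κ : Cardinal.{0}} (hr : κ.IsRegular) (h0 : ℵ₀ < κ)
    (hκ : κ ≤ 𝔠) {X : Set (ℕ → Bool)}
    (hX : ∀ M : Set (ℕ → Bool), IsMeagre M → #(X ∩ M : Set (ℕ → Bool)) < κ) :
    ∃ D : Set (ℕ → Bool), D.Countable ∧ Dense D ∧ ∀ d ∈ D, ∀ x ∈ X, ¬ FinSupp (xorB x d) := by
  have h1 : ∀ l : List Bool, ∃ d ∈ CylB l, ∀ x ∈ X, ¬ FinSupp (xorB x d) := by
    intro l
    let θ : (ℕ → Bool) → (ℕ → Bool) := fun w i =>
      if i < l.length then l.getD i false else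
        if (i - l.length) % 2 = 0 then w ((i - l.length) / 2) else true
    have hθ : Continuous θ := by
      apply continuous_pi
      intro i
      by_cases h1 : i < l.length
      · simp only [θ, h1, if_true]; exact continuous_const
      · by_cases h2 : (i - l.length) % 2 = 0
        · simp only [θ, h1, h2, if_true, if_false]
          exact continuous_apply _
        · simp only [θ, h1, h2, if_false]
          exact continuous_const
    have hθi : Function.Injective θ := by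
      intro w w' h
      ext n
      have := congrFun h (l.length + 2 * n)
      have h1 : ¬ (l.length + 2 * n < l.length) := by omega
      have h2 : (l.length + 2 * n - l.length) % 2 = 0 := by omega
      have h3 : (l.length + 2 * n - l.length) / 2 = n := by omega
      simpa only [θ, h1, h2, h3, if_true, if_false] using this
    have hθf : ∀ w, ¬ FinSupp (θ w) := by
      rintro w ⟨k, hk⟩
      have := hk (l.length + 2 * k + 1) (by omega)
      have h1 : ¬ (l.length + 2 * k + 1 < l.length) := by omega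
      have h2 : ¬ ((l.length + 2 * k + 1 - l.length) % 2 = 0) := by omega
      simp only [θ, h1, h2, if_false] at this
      exact Bool.noConfusion this
    have hc := luzin_avoid_k hr h0 hX countable_finSupp hθi
      (isMeagre_range_of_not_finSupp hθ hθf) (fun _ => false)
    obtain ⟨w, hw⟩ : ∃ w, w ∉ {w | ∃ q ∈ {z : ℕ → Bool | FinSupp z}, ∃ x' ∈ X,
        xorB x' (xorB (fun _ => false) (θ w)) = q} := by
      by_contra hcon
      push Not at hcon
      rw [eq_univ_of_forall hcon, Cardinal.mk_univ] at hc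
      have : #(ℕ → Bool) = 𝔠 := by simp
      rw [this] at hc
      exact absurd hc (not_lt.2 hκ)
    have h00 : xorB (fun _ => false) (θ w) = θ w := by ext n; simp [xorB]
    refine ⟨θ w, ?_, fun x hx hf => hw ⟨_, hf, x, hx, by rw [h00]⟩⟩
    intro i hi
    simp only [θ, hi, if_true]
  choose d hd1 hd2 using h1
  refine ⟨range d, Set.countable_range d, ?_, ?_⟩
  · rw [dense_iff_inter_open]
    rintro U hU ⟨x, hx⟩
    rw [isOpen_pi_iff] at hU
    obtain ⟨I, u, hu, hsub⟩ := hU x hx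
    obtain ⟨L, hL⟩ : ∃ L, ∀ i ∈ I, i < L :=
      ⟨I.sup id + 1, fun i hi => Nat.lt_succ_of_le (Finset.le_sup (f := id) hi)⟩
    refine ⟨d (List.ofFn fun i : Fin L => x i), hsub ?_, ⟨_, rfl⟩⟩
    intro i hi
    have hiL : i < L := hL i hi
    have h1 := hd1 (List.ofFn fun i : Fin L => x i) i (by rw [List.length_ofFn]; exact hiL)
    have h2 : (List.ofFn fun i : Fin L => x i).getD i false = x i := by
      simp [List.getD_eq_getElem?_getD, hiL]
    rw [h1, h2]
    exact (hu i hi).2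
  · rintro _ ⟨l, rfl⟩ x hx
    exact hd2 l x hx

/-- The finite subsets of a small set are few. -/
theorem finset_sub_lt {κ : Cardinal.{0}} (h0 : ℵ₀ < κ) {α : Type} (T : Set α) (hT : #T < κ) :
    #{S : Finset α // ∀ p ∈ S, p ∈ T} < κ := by
  classical
  have h1 : #{S : Finset α // ∀ p ∈ S, p ∈ T} ≤ #(Finset T) := by
    refine Cardinal.mk_le_of_surjective (f := fun s : Finset T =>
      (⟨s.map (Function.Embedding.subtype _), by
        intro p hp
        obtain ⟨a, -, rfl⟩ := Finset.mem_map.1 hp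
        exact a.2⟩ : {S : Finset α // ∀ p ∈ S, p ∈ T})) ?_
    rintro ⟨S, hS⟩
    refine ⟨S.subtype (fun p => p ∈ T), ?_⟩
    apply Subtype.ext
    exact Finset.subtype_map_of_mem hS
  refine h1.trans_lt ?_
  rcases lt_or_ge #T ℵ₀ with h | h
  · have : Finite T := Cardinal.lt_aleph0_iff_finite.1 h
    have : Countable (Finset T) := inferInstance
    exact (Cardinal.mk_le_aleph0_iff.2 this).trans_lt h0
  · have : Infinite T := Cardinal.infinite_iff.2 h
    rw [Cardinal.mk_finset_of_infinite]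
    exact hT

/-- The selection principle with finitely many choices at each step. -/
def OmegaFin (Y : Set (ℕ → Bool)) : Prop :=
  ∀ v : ℕ → ℕ → Finset (List Bool),
    (∀ F : Set (ℕ → Bool), F.Finite → F ⊆ Y → ∀ m, ∃ j, F ⊆ Clop (v m j)) →
    ∃ f : ℕ → ℕ, ∀ F : Set (ℕ → Bool), F.Finite → F ⊆ Y → ∃ m, ∃ j ≤ f m, F ⊆ Clop (v m j)

/-- The selection principle implies that all finite powers are Menger. -/
theorem OmegaFin.menger_pow {Y : Set (ℕ → Bool)} (hY : OmegaFin Y) (hne : Y.Nonempty)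
    (k : ℕ) : MengerSp (Fin k → Y) := by
  classical
  intro U hU
  -- admissible clopen sets
  let A : ℕ → Set (Finset (List Bool)) := fun m => {C | ∃ (j : ℕ) (u : ℕ → Set (Fin k → Y)),
    (∀ i, u i ∈ U (Nat.pair m i)) ∧ ∀ z : Fin k → Y, (∀ t, (z t : ℕ → Bool) ∈ Clop C) →
      ∃ i < j, z ∈ u i}
  have hUne : ∀ n, ∃ u, u ∈ U n := by
    intro n
    obtain ⟨y, hy⟩ := hne
    have : (fun _ => ⟨y, hy⟩ : Fin k → Y) ∈ ⋃₀ U n := by rw [(hU n).2]; trivial
    obtain ⟨u, hu, -⟩ := this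
    exact ⟨u, hu⟩
  choose u0 hu0 using hUne
  have hA : ∀ F : Set (ℕ → Bool), F.Finite → F ⊆ Y → ∀ m, ∃ C ∈ A m, F ⊆ Clop C := by
    intro F hF hFY m
    -- the finite set of points of the power with coordinates in `F`
    have hZ : {z : Fin k → Y | ∀ t, (z t : ℕ → Bool) ∈ F}.Finite := by
      have h1 : (Subtype.val ⁻¹' F : Set Y).Finite := hF.preimage Subtype.val_injective.injOn
      have := Set.Finite.pi' (ι := Fin k) (t := fun _ => (Subtype.val ⁻¹' F : Set Y)) fun _ => h1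
      exact this
    obtain ⟨j, e, he⟩ : ∃ (j : ℕ) (e : ℕ → (Fin k → Y)),
        ∀ z : Fin k → Y, (∀ t, (z t : ℕ → Bool) ∈ F) → ∃ i < j, e i = z := by
      obtain ⟨y, hy⟩ := hne
      let L := hZ.toFinset.toList
      refine ⟨L.length, fun i => L.getD i (fun _ => ⟨y, hy⟩), fun z hz => ?_⟩
      have hzL : z ∈ L := by
        rw [Finset.mem_toList, Set.Finite.mem_toFinset]
        exact hz
      obtain ⟨i, hi, hiz⟩ := List.mem_iff_getElem.1 hzL
      refine ⟨i, hi, ?_⟩
      simp [List.getD_eq_getElem?_getD, hi, hiz]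
    have h2 : ∀ i, ∃ u ∈ U (Nat.pair m i), ∃ L : ℕ, ∀ z : Fin k → Y,
        (∀ t, ∀ n < L, (z t : ℕ → Bool) n = (e i t : ℕ → Bool) n) → z ∈ u := by
      intro i
      have : e i ∈ ⋃₀ U (Nat.pair m i) := by rw [(hU _).2]; trivial
      obtain ⟨u, hu, heu⟩ := this
      refine ⟨u, hu, ?_⟩
      have huo := (hU _).1 u hu
      rw [isOpen_pi_iff] at huo
      obtain ⟨I, w, hw, hsub⟩ := huo _ heu
      have h3 : ∀ t : Fin k, ∃ L : ℕ, t ∈ I → ∀ y : Y,
          (∀ n < L, (y : ℕ → Bool) n = (e i t : ℕ → Bool) n) → y ∈ w t := by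
        intro t
        by_cases ht : t ∈ I
        · obtain ⟨hwo, hwm⟩ := hw t ht
          obtain ⟨w', hw', hw'e⟩ := isOpen_induced_iff.1 hwo
          have hm : (e i t : ℕ → Bool) ∈ w' := by
            have : e i t ∈ Subtype.val ⁻¹' w' := by rw [hw'e]; exact hwm
            exact this
          rw [isOpen_pi_iff] at hw'
          obtain ⟨J, s, hs, hsub'⟩ := hw' _ hm
          refine ⟨J.sup id + 1, fun _ y hy => ?_⟩
          rw [← hw'e]
          apply hsub'
          intro n hn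
          have : n < J.sup id + 1 := Nat.lt_succ_of_le (Finset.le_sup (f := id) hn)
          rw [hy n this]
          exact (hs n hn).2
        · exact ⟨0, fun h => absurd h ht⟩
      choose L hL using h3
      refine ⟨Finset.univ.sup L, fun z hz => hsub ?_⟩
      intro t ht
      exact hL t ht (z t) fun n hn => hz t n (lt_of_lt_of_le hn (Finset.le_sup (Finset.mem_univ t)))
    choose u hu L hL using h2
    set L0 := (Finset.range j).sup L with hL0
    have hFfin := hF.toFinset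
    refine ⟨hF.toFinset.image (fun y => List.ofFn (fun i : Fin L0 => y i)),
      ⟨j, u, hu, fun z hz => ?_⟩, fun y hy => ?_⟩
    · have h4 : ∀ t, ∃ y ∈ F, ∀ n < L0, (z t : ℕ → Bool) n = y n := by
        intro t
        obtain ⟨l, hl, hzl⟩ := hz t
        obtain ⟨y, hy, rfl⟩ := Finset.mem_image.1 hl
        refine ⟨y, hF.mem_toFinset.1 hy, fun n hn => ?_⟩
        rw [hzl n (by simpa using hn)]
        simp [List.getD_eq_getElem?_getD, hn]
      choose y hyF hyz using h4
      obtain ⟨i, hi, hei⟩ := he (fun t => ⟨y t, hFY (hyF t)⟩) (fun t => hyF t)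
      refine ⟨i, hi, hL i z fun t n hn => ?_⟩
      rw [hei]
      exact hyz t n (lt_of_lt_of_le hn (Finset.le_sup (Finset.mem_range.2 hi)))
    · refine ⟨_, Finset.mem_image.2 ⟨y, hF.mem_toFinset.2 hy, rfl⟩, ?_⟩
      intro i hi
      have hi' : i < L0 := by simpa using hi
      simp [List.getD_eq_getElem?_getD, hi']
  have hAne : ∀ m, (A m).Nonempty := by
    intro m
    obtain ⟨C, hC, -⟩ := hA ∅ Set.finite_empty (empty_subset _) m
    exact ⟨C, hC⟩
  have hv : ∀ m, ∃ w : ℕ → Finset (List Bool), A m = range w := fun m =>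
    (Set.to_countable (A m)).exists_eq_range (hAne m)
  choose v hv using hv
  obtain ⟨f, hf⟩ := hY v (by
    intro F hF hFY m
    obtain ⟨C, hC, hFC⟩ := hA F hF hFY m
    rw [hv m] at hC
    obtain ⟨j, rfl⟩ := hC
    exact ⟨j, hFC⟩)
  have hvA : ∀ m l, v m l ∈ A m := fun m l => by rw [hv m]; exact ⟨_, rfl⟩
  choose j u hu huz using hvA
  refine ⟨fun n => (fun l => u (Nat.unpair n).1 l (Nat.unpair n).2) ''
    {l | l ≤ f (Nat.unpair n).1}, fun n => ⟨?_, ?_⟩, ?_⟩
  · rintro _ ⟨l, -, rfl⟩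
    have := hu (Nat.unpair n).1 l (Nat.unpair n).2
    rwa [Nat.pair_unpair] at this
  · exact (Set.finite_le_nat _).image _
  · rw [eq_univ_iff_forall]
    intro z
    obtain ⟨m, l, hl, hm⟩ := hf (range fun t => (z t : ℕ → Bool)) (Set.finite_range _) (by
      rintro _ ⟨t, rfl⟩
      exact (z t).2)
    obtain ⟨i, -, hi⟩ := huz m l z fun t => hm ⟨t, rfl⟩
    refine mem_iUnion.2 ⟨Nat.pair m i, ?_⟩
    refine mem_sUnion.2 ⟨_, ⟨l, ?_, rfl⟩, ?_⟩
    · simpa using hl
    · simpa using hi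

end Pool.Agent.H381R3.LP
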