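import Pool.Agent.H381R3.LPBasics

/-!
If `cov(M)` is the continuum and regular, then for every `cov(M)`-Luzin set `X` there is a set `Y`
with all finite powers Rothberger and `X × Y` not Menger.
-/

set_option autoImplicit false

namespace Pool.Agent.H381R3.LP

open Set Filter Topology Cardinal Pool.Agent.H752R3

/-- The well-order of the continuum. -/
abbrev KC : Type := (𝔠 : Cardinal.{0}).ord.ToType

theorem mk_Iio_KC (a : KC) : #(Set.Iio a) < (𝔠 : Cardinal.{0}) := by
  simpa using Cardinal.mk_Iio_lt a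

theorem exists_surjection_KC {α : Type} [Nonempty α]
    (h : #α ≤ 𝔠) : ∃ f : KC → α, Function.Surjective f := by
  have hcard : #KC = 𝔠 := Cardinal.mk_ord_toType _
  have : #α ≤ #KC := by rw [hcard]; exact h
  obtain ⟨g⟩ := (Cardinal.le_def _ _).1 this
  exact ⟨Function.invFun g, Function.invFun_surjective g.injective⟩

/-- **Main construction for Luzin sets.** -/
theorem luzin_product_big (hr : (𝔠 : Cardinal.{0}).IsRegular) (hcov : CovC)
    {X : Set (ℕ → Bool)} (hX : SLuzin X) :
    ∃ Y : Set (ℕ → Bool), Y.Nonempty ∧ OmegaSel Y ∧ ¬ MengerSp (X × Y) := by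
  classical
  obtain ⟨D, hDc, hDd, hDX⟩ := exists_dense_avoid_big hr hX.2
  obtain ⟨e, he⟩ := exists_surjection_KC (α := ℕ → ℕ) (by simp)
  obtain ⟨v, hv⟩ := exists_surjection_KC (α := ℕ → ℕ → Finset (List Bool)) (by
    have h2 : #(ℕ → ℕ → Finset (List Bool)) = (ℵ₀ ^ ℵ₀) ^ ℵ₀ := by simp
    rw [h2]
    simp)
  let Pt : (KC → ℕ → Bool) → KC →
      Set (ℕ → Bool) := fun prev a => D ∪ prev '' Set.Iio a
  let sel : Set (ℕ → Bool) → (ℕ → ℕ → Finset (List Bool)) → ℕ → ℕ := fun A v =>
    if h : ∃ f : ℕ → ℕ, ∀ F : Set (ℕ → Bool), F.Finite → F ⊆ A → ∃ m, F ⊆ Clop (v m (f m)) then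
      h.choose else fun _ => 0
  have hsel : ∀ (A : Set (ℕ → Bool)) (v : ℕ → ℕ → Finset (List Bool)), #A < 𝔠 →
      (∀ F : Set (ℕ → Bool), F.Finite → F ⊆ A → ∀ m, ∃ j, F ⊆ Clop (v m j)) →
      ∀ F : Set (ℕ → Bool), F.Finite → F ⊆ A → ∃ m, F ⊆ Clop (v m (sel A v m)) := by
    intro A v hA hAv
    have h1 : ∃ f : ℕ → ℕ, ∀ F : Set (ℕ → Bool), F.Finite → F ⊆ A →
        ∃ m, F ⊆ Clop (v m (f m)) := select_small hcov hA v hAv
    have h4 : sel A v = h1.choose := dif_pos h1
    rw [h4]
    exact h1.choose_spec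
  let Act : (KC → ℕ → Bool) → KC →
      KC → Prop := fun prev a β =>
    ∀ F : Set (ℕ → Bool), F.Finite → F ⊆ Pt prev β →
      ∃ m, F ⊆ Clop (v a m (sel (Pt prev a) (v a) m))
  let P : KC → (KC → ℕ → Bool) →
      (ℕ → Bool) → Prop := fun β prev y =>
    (∀ x ∈ X, ¬ FinSupp (xorB x y)) ∧
    (∃ x ∈ X, ∃ f : ℕ → ℕ, (∀ n, e β n ≤ f n) ∧ xorB x y = chi f) ∧
    ∀ a ≤ β, Act prev a β → ∀ F : Set (ℕ → Bool), F.Finite → F ⊆ Pt prev β →
      ∃ m, insert y F ⊆ Clop (v a m (sel (Pt prev a) (v a) m))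
  have hPtc : ∀ prev a, #(Pt prev a) < 𝔠 := by
    intro prev a
    refine (Cardinal.mk_union_le _ _).trans_lt (Cardinal.add_lt_of_lt
      Cardinal.aleph0_le_continuum (lt_of_countable hDc) ?_)
    exact Cardinal.mk_image_le.trans_lt (mk_Iio_KC a)
  obtain ⟨Y, hY⟩ := exists_transfinite P (by
    intro β prev
    -- the dense open sets
    let Od : KC × Set (ℕ → Bool) → Set (ℕ → Bool) := fun p =>
      ⋃ m, ⋃ (_ : p.2 ⊆ Clop (v p.1 m (sel (Pt prev p.1) (v p.1) m))),
        Clop (v p.1 m (sel (Pt prev p.1) (v p.1) m))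
    let Idx : Set (KC × Set (ℕ → Bool)) :=
      {p | (p.1 ≤ β ∧ Act prev p.1 β) ∧ p.2.Finite ∧ p.2 ⊆ Pt prev β}
    have hIdx : #Idx < 𝔠 := by
      have h1 : #(Set.Iic β) < 𝔠 := by
        rw [← Set.Iio_insert]
        refine (Cardinal.mk_insert_le).trans_lt ?_
        exact Cardinal.add_lt_of_lt Cardinal.aleph0_le_continuum (mk_Iio_KC β)
          (Cardinal.one_lt_aleph0.trans Cardinal.aleph0_lt_continuum)
      have h2 := finite_subsets_lt (hPtc prev β)
      have h3 : Idx ⊆ (Set.Iic β) ×ˢ {F : Set (ℕ → Bool) | F.Finite ∧ F ⊆ Pt prev β} := by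
        rintro ⟨a, F⟩ ⟨⟨h1, -⟩, h2⟩
        exact ⟨h1, h2⟩
      refine (Cardinal.mk_le_mk_of_subset h3).trans_lt ?_
      rw [Cardinal.mk_setProd]
      exact Cardinal.mul_lt_of_lt Cardinal.aleph0_le_continuum h1 h2
    have hOo : ∀ p : Idx, IsOpen (Od p) := by
      intro p
      exact isOpen_iUnion fun m => isOpen_iUnion fun _ => isOpen_Clop _
    have hOd : ∀ p : Idx, Dense (Od p) := by
      rintro ⟨p, ⟨⟨hp1, hp2⟩, hp3, hp4⟩⟩
      refine Dense.mono ?_ hDd
      intro d hd
      obtain ⟨m, hm⟩ := hp2 (insert d p.2) (hp3.insert d)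
        (insert_subset (Or.inl hd) hp4)
      exact mem_iUnion.2 ⟨m, mem_iUnion.2 ⟨(subset_insert _ _).trans hm,
        hm (mem_insert _ _)⟩⟩
    let fw : (ℕ → Bool) → ℕ → ℕ := fun w n => e β n + (w n).toNat
    have hfw : Continuous fw := by
      apply continuous_pi
      intro n
      exact continuous_const.add ((continuous_of_discreteTopology (f := Bool.toNat)).comp
        (continuous_apply n : Continuous fun x : ℕ → Bool => x n))
    have hfwi : Function.Injective fw := by
      intro w w' h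
      ext n
      have h1 : (w n).toNat = (w' n).toNat := by
        have := congrFun h n
        simp only [fw] at this
        omega
      revert h1
      cases w n <;> cases w' n <;> simp
    obtain ⟨w, x, hxX, hxO, hxQ⟩ := luzin_step_big hr hcov hX countable_finSupp
      (θ := fun w => chi (fw w)) (continuous_chi.comp hfw) (chi_injective.comp hfwi)
      (isMeagre_range_of_not_finSupp (continuous_chi.comp hfw) fun w => not_finSupp_chi _)
      hIdx hOo hOd
    refine ⟨xorB x (chi (fw w)), hxQ, ⟨x, hxX, fw w, fun n => Nat.le_add_right _ _,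
      xorB_self_cancel _ _⟩, ?_⟩
    intro a ha hact F hF hFs
    have h2 := hxO ⟨(a, F), ⟨⟨ha, hact⟩, hF, hFs⟩⟩
    obtain ⟨m, hm⟩ := mem_iUnion.1 h2
    obtain ⟨hm1, hm2⟩ := mem_iUnion.1 hm
    exact ⟨m, insert_subset hm2 hm1⟩) (by
    intro β prev prev' y hpp hP
    have hPt : ∀ a ≤ β, Pt prev a = Pt prev' a := by
      intro a ha
      have : prev '' Set.Iio a = prev' '' Set.Iio a :=
        image_congr fun b hb => hpp b (lt_of_lt_of_le hb ha)
      simp only [Pt, this]
    refine ⟨hP.1, hP.2.1, ?_⟩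
    intro a ha hact F hF hFs
    have h1 : Act prev a β := by
      intro F' hF' hFs'
      have := hact F' hF' (by rw [← hPt β le_rfl]; exact hFs')
      rw [← hPt a ha] at this
      exact this
    have h2 := hP.2.2 a ha h1 F hF (by rw [hPt β le_rfl]; exact hFs)
    rw [hPt a ha] at h2
    exact h2)
  have hne : Nonempty KC := by
    rw [← Cardinal.mk_ne_zero_iff, Cardinal.mk_ord_toType]
    exact Cardinal.continuum_ne_zero
  refine ⟨D ∪ range Y, ⟨Y (Classical.arbitrary _), Or.inr ⟨_, rfl⟩⟩, ?_, ?_⟩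
  · -- the selection property
    intro v' hv'
    obtain ⟨a, ha⟩ := hv v'
    have hsub : Pt Y a ⊆ D ∪ range Y := union_subset_union_right _ (image_subset_range _ _)
    have hbase := hsel (Pt Y a) v' (hPtc Y a) fun F hF hFA m => hv' F hF (hFA.trans hsub) m
    -- splitting a finite set
    have hsplit : ∀ (s : Set KC) (F : Set (ℕ → Bool)), F.Finite →
        F ⊆ D ∪ Y '' s → F ⊆ D ∨ ∃ b ∈ s, F ⊆ D ∪ Y '' Set.Iic b := by
      intro s F hF hFs
      by_cases hFD : F ⊆ D
      · exact Or.inl hFD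
      · right
        have h1 : ∀ y : ℕ → Bool, ∃ b, y ∈ F \ D → b ∈ s ∧ Y b = y := by
          intro y
          by_cases hy : y ∈ F \ D
          · rcases hFs hy.1 with h | ⟨b, hb, hby⟩
            · exact absurd h hy.2
            · exact ⟨b, fun _ => ⟨hb, hby⟩⟩
          · exact ⟨Classical.arbitrary _, fun h => absurd h hy⟩
        choose b hb using h1
        have hfin : (F \ D).Finite := hF.subset sdiff_subset
        obtain ⟨y0, hy0, hmax⟩ := Set.exists_max_image (F \ D) b hfin (by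
          obtain ⟨y, hy1, hy2⟩ := not_subset.1 hFD
          exact ⟨y, hy1, hy2⟩)
        refine ⟨b y0, (hb y0 hy0).1, fun y hy => ?_⟩
        by_cases hyD : y ∈ D
        · exact Or.inl hyD
        · exact Or.inr ⟨b y, hmax y ⟨hy, hyD⟩, (hb y ⟨hy, hyD⟩).2⟩
    refine ⟨sel (Pt Y a) v', ?_⟩
    have hT : ∀ b, ∀ F : Set (ℕ → Bool), F.Finite → F ⊆ D ∪ Y '' Set.Iic b →
        ∃ m, F ⊆ Clop (v' m (sel (Pt Y a) v' m)) := by
      intro b
      induction b using WellFoundedLT.induction with
      | ind b ih =>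
        intro F hF hFb
        rcases lt_or_ge b a with hba | hab
        · apply hbase F hF
          refine hFb.trans (union_subset_union_right _ (image_mono ?_))
          intro c hc
          exact lt_of_le_of_lt hc hba
        · have hact : Act Y a b := by
            intro F' hF' hFs'
            rw [ha]
            rcases hsplit _ F' hF' hFs' with h | ⟨c, hc, hFc⟩
            · exact hbase F' hF' (h.trans subset_union_left)
            · exact ih c hc F' hF' hFc
          obtain ⟨m, hm⟩ := (hY b).2.2 a hab hact (F \ {Y b}) (hF.subset sdiff_subset) (by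
            rintro y ⟨hy1, hy2⟩
            rcases hFb hy1 with h | ⟨c, hc, hcy⟩
            · exact Or.inl h
            · refine Or.inr ⟨c, ?_, hcy⟩
              rcases (show c ≤ b from hc).lt_or_eq with h | h
              · exact h
              · subst h
                exact absurd hcy.symm hy2)
          rw [ha] at hm
          refine ⟨m, fun y hy => hm ?_⟩
          by_cases hyb : y = Y b
          · exact Or.inl hyb
          · exact Or.inr ⟨hy, hyb⟩
    intro F hF hFY
    rw [← image_univ] at hFY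
    rcases hsplit _ F hF hFY with h | ⟨b, -, hFb⟩
    · exact hbase F hF (h.trans subset_union_left)
    · exact hT b F hF hFb
  · -- the product is not Menger
    intro hmenger
    have hnf : ∀ x ∈ X, ∀ y ∈ D ∪ range Y, ¬ FinSupp (xorB x y) := by
      rintro x hx y (hy | ⟨b, rfl⟩)
      · exact hDX y hy x hx
      · exact (hY b).1 x hx
    let V : ℕ → ℕ → Set (X × (D ∪ range Y : Set (ℕ → Bool))) := fun n k =>
      {z | n < cnt k (xorB z.1 z.2)}
    have hVo : ∀ n k, IsOpen (V n k) := by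
      intro n k
      have hc : Continuous fun z : X × (D ∪ range Y : Set (ℕ → Bool)) =>
          cnt k (xorB z.1 z.2) := (continuous_cnt k).comp (continuous_xorB.comp
            ((continuous_subtype_val.comp continuous_fst).prodMk
              (continuous_subtype_val.comp continuous_snd)))
      exact (isOpen_discrete (Set.Ioi n)).preimage hc
    obtain ⟨F, hF1, hF2⟩ := hmenger.frequently (fun n => range (V n)) (by
      intro n
      refine ⟨?_, ?_⟩
      · rintro _ ⟨k, rfl⟩
        exact hVo n k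
      · rw [eq_univ_iff_forall]
        rintro ⟨⟨x, hx⟩, ⟨y, hy⟩⟩
        obtain ⟨k, hk⟩ := exists_lt_cnt_of_not_finSupp (hnf x hx y hy) n
        exact ⟨_, ⟨k, rfl⟩, hk⟩)
    have hg : ∀ n, ∃ g, ∀ z ∈ ⋃₀ F n, n < cnt g (xorB z.1 z.2) := by
      intro n
      obtain ⟨E, -, hE2, hE3⟩ : ∃ E ⊆ (Set.univ : Set ℕ), E.Finite ∧ V n '' E = F n := by
        have := Set.exists_subset_image_finite_and (f := V n) (s := Set.univ)
          (p := fun t => t = F n)
        obtain ⟨E', h1, h2, h3⟩ := this.1 ⟨F n, by rw [image_univ]; exact (hF1 n).1,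
          (hF1 n).2, rfl⟩
        exact ⟨E', h1, h2, h3⟩
      obtain ⟨g, hg⟩ := hE2.bddAbove
      refine ⟨g, ?_⟩
      rintro z ⟨u, hu, hz⟩
      rw [← hE3] at hu
      obtain ⟨k, hk, rfl⟩ := hu
      have h1 : n < cnt k (xorB z.1 z.2) := hz
      exact lt_of_lt_of_le h1 (cnt_mono (hg hk) _)
    choose g hg using hg
    obtain ⟨a, ha⟩ := he g
    obtain ⟨x, hx, f, hf1, hf2⟩ := (hY a).2.1
    rw [ha] at hf1
    obtain ⟨n, hn⟩ := (hF2 (⟨x, hx⟩, ⟨Y a, Or.inr ⟨a, rfl⟩⟩)).exists
    have h1 := hg n _ hn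
    have h2 : xorB x (Y a) = chi f := hf2
    rw [h2] at h1
    have h3 := le_psum f (le_refl n)
    have h4 := hf1 n
    have h5 : cnt (g n) (chi f) ≤ n := cnt_chi_le (by omega)
    omega

end Pool.Agent.H381R3.LP
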