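import Mathlib
import Pool.Agent.H381R3.Cover

/-! The space: two copies of the tree with the two one-sided topologies. -/

namespace Pool.Agent.H381R3.Roth

open Set

/-- The point set. -/
def Pt {W : Type} [LinearOrder W] (e : W → W → ℕ) : Type := Node e × Bool

variable {W : Type} [LinearOrder W] {e : W → W → ℕ}

/-- the point of the copy `σ` -/
def mkPt (t : Node e) (σ : Bool) : Pt e := (t, σ)

instance ptTop : TopologicalSpace (Pt e) where
  IsOpen U := ∀ (t : Node e) (σ : Bool), mkPt t σ ∈ U → ∃ z, z < t.ht ∧ ∀ s ∈ N σ t z, mkPt s σ ∈ U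
  isOpen_univ := fun t σ _ => by
    obtain ⟨c, hc⟩ := t.pos
    exact ⟨c, hc, fun s _ => mem_univ _⟩
  isOpen_inter := fun U V hU hV t σ h => by
    obtain ⟨z, hz, h1⟩ := hU t σ h.1
    obtain ⟨z', hz', h2⟩ := hV t σ h.2
    refine ⟨max z z', max_lt hz hz', fun s hs => ⟨?_, ?_⟩⟩
    · exact h1 s (N_anti σ t (le_max_left _ _) hs)
    · exact h2 s (N_anti σ t (le_max_right _ _) hs)
  isOpen_sUnion := fun S hS t σ h => by
    obtain ⟨U, hU, h1⟩ := h
    obtain ⟨z, hz, h2⟩ := hS U hU t σ h1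
    exact ⟨z, hz, fun s hs => ⟨U, hU, h2 s hs⟩⟩

theorem isOpen_iff {U : Set (Pt e)} : IsOpen U ↔ ∀ (t : Node e) (σ : Bool), mkPt t σ ∈ U →
    ∃ z, z < t.ht ∧ ∀ s ∈ N σ t z, mkPt s σ ∈ U := Iff.rfl

/-- basic sets -/
def Bs (σ : Bool) (t : Node e) (z : W) : Set (Pt e) := {x | x.2 = σ ∧ x.1 ∈ N σ t z}

theorem mem_Bs {σ τ : Bool} {t s : Node e} {z : W} :
    mkPt s τ ∈ Bs σ t z ↔ τ = σ ∧ s ∈ N σ t z := Iff.rfl

variable [WellFoundedLT W]

theorem isOpen_Bs (σ : Bool) (t : Node e) (z : W) : IsOpen (Bs σ t z) := by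
  rw [isOpen_iff]
  rintro s τ ⟨h1, h2⟩
  have h1' : τ = σ := h1
  subst h1'
  obtain ⟨z', h3, h4⟩ := N_open h2
  exact ⟨z', h3, fun r hr => ⟨rfl, h4 hr⟩⟩

theorem isClosed_Bs (σ : Bool) (t : Node e) {z : W} (_ : z < t.ht) : IsClosed (Bs σ t z) := by
  rw [← isOpen_compl_iff, isOpen_iff]
  intro s τ h
  by_cases hτ : τ = σ
  · subst hτ
    have h' : s ∉ N τ t z := fun h1 => h ⟨rfl, h1⟩
    obtain ⟨z', h3, h4⟩ := N_closed h'
    exact ⟨z', h3, fun r hr hr' => h4 hr hr'.2⟩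
  · obtain ⟨c, hc⟩ := s.pos
    exact ⟨c, hc, fun r _ hr => hτ hr.1⟩

/-- clopen neighbourhoods form a base -/
theorem clopen_base (x : Pt e) (U : Set (Pt e)) (hU : IsOpen U) (hx : x ∈ U) :
    ∃ V, IsClopen V ∧ x ∈ V ∧ V ⊆ U := by
  obtain ⟨t, σ⟩ := x
  obtain ⟨z, hz, h⟩ := hU t σ hx
  refine ⟨Bs σ t z, ⟨isClosed_Bs σ t hz, isOpen_Bs σ t z⟩, ⟨rfl, self_mem_N σ t hz⟩, ?_⟩
  rintro ⟨s, τ⟩ ⟨h1, h2⟩
  have h1' : τ = σ := h1
  subst h1'
  exact h s h2

theorem sep_node (σ : Bool) {s t : Node e} (hne : s ≠ t) :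
    (∃ z, z < t.ht ∧ s ∉ N σ t z) ∨ (∃ z, z < s.ht ∧ t ∉ N σ s z) := by
  rcases cases4 σ s t with h | h | h | h
  · refine Or.inl ⟨s.ht, ?_, fun h1 => lt_irrefl _ h1.1⟩
    rcases h.1.lt_or_eq with h' | h'
    · exact h'
    · exact (hne (node_eq h' h.2)).elim
  · refine Or.inr ⟨t.ht, ?_, fun h1 => lt_irrefl _ h1.1⟩
    rcases h.1.lt_or_eq with h' | h'
    · exact h'
    · exact (hne (node_eq h' h.2).symm).elim
  · obtain ⟨c, m1, m2, m3, m4⟩ := h
    exact Or.inl ⟨c, m1, fun h1 => lab_ne m4 (h1.2.1 c le_rfl).symm⟩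
  · obtain ⟨c, m1, m2, m3, m4⟩ := h
    exact Or.inl ⟨c, m2, fun h1 => lab_ne m4 (h1.2.1 c le_rfl)⟩

theorem t2 : T2Space (Pt e) := by
  have key : ∀ x y : Pt e, x ≠ y → ∃ U : Set (Pt e), IsClopen U ∧
      ((x ∈ U ∧ y ∉ U) ∨ (y ∈ U ∧ x ∉ U)) := by
    rintro ⟨s, σ⟩ ⟨t, τ⟩ hne
    by_cases hστ : σ = τ
    · subst hστ
      have hne' : s ≠ t := fun h => hne (by rw [h])
      rcases sep_node σ hne' with ⟨z, hz, h⟩ | ⟨z, hz, h⟩
      · exact ⟨Bs σ t z, ⟨isClosed_Bs σ t hz, isOpen_Bs σ t z⟩,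
          Or.inr ⟨⟨rfl, self_mem_N σ t hz⟩, fun h1 => h h1.2⟩⟩
      · exact ⟨Bs σ s z, ⟨isClosed_Bs σ s hz, isOpen_Bs σ s z⟩,
          Or.inl ⟨⟨rfl, self_mem_N σ s hz⟩, fun h1 => h h1.2⟩⟩
    · obtain ⟨c, hc⟩ := s.pos
      exact ⟨Bs σ s c, ⟨isClosed_Bs σ s hc, isOpen_Bs σ s c⟩,
        Or.inl ⟨⟨rfl, self_mem_N σ s hc⟩, fun h1 => hστ h1.1.symm⟩⟩
  refine ⟨fun x y hne => ?_⟩
  obtain ⟨U, hU, ⟨h1, h2⟩ | ⟨h1, h2⟩⟩ := key x y hne
  · exact ⟨U, Uᶜ, hU.isOpen, hU.compl.isOpen, h1, h2, disjoint_compl_right⟩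
  · exact ⟨Uᶜ, U, hU.compl.isOpen, hU.isOpen, h2, h1, disjoint_compl_left⟩

/-- nodes whose two copies lie in the two given sets -/
def diag (A B : Set (Pt e)) : Set (Node e) := {t | mkPt t false ∈ A ∧ mkPt t true ∈ B}

/-- The two one-sided topologies are transverse. -/
theorem transverse (hc : ∀ a : W, (Iio a).Countable)
    (he : ∀ a b, b < a → {c | c < b ∧ e a c ≠ e b c}.Finite) (x y : Pt e) :
    ∃ A B : Set (Pt e), IsOpen A ∧ IsOpen B ∧ x ∈ A ∧ y ∈ B ∧ (diag A B).Countable := by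
  obtain ⟨s, σ⟩ := x
  obtain ⟨t, τ⟩ := y
  obtain ⟨c1, hc1⟩ := s.pos
  obtain ⟨c2, hc2⟩ := t.pos
  cases σ with
  | true =>
    refine ⟨Bs true s c1, Bs τ t c2, isOpen_Bs _ _ _, isOpen_Bs _ _ _,
      ⟨rfl, self_mem_N _ _ hc1⟩, ⟨rfl, self_mem_N _ _ hc2⟩, ?_⟩
    refine countable_empty.mono ?_
    rintro r ⟨h1, h2⟩
    exact absurd h1.1 (by simp [mkPt])
  | false =>
    cases τ with
    | false =>
      refine ⟨Bs false s c1, Bs false t c2, isOpen_Bs _ _ _, isOpen_Bs _ _ _,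
        ⟨rfl, self_mem_N _ _ hc1⟩, ⟨rfl, self_mem_N _ _ hc2⟩, ?_⟩
      refine countable_empty.mono ?_
      rintro r ⟨h1, h2⟩
      exact absurd h2.1 (by simp [mkPt])
    | true =>
      have hsmall : ∀ r : Node e, (Le r s ∨ Le r t) → r.ht ≤ max s.ht t.ht := by
        rintro r (h | h)
        · exact h.1.trans (le_max_left _ _)
        · exact h.1.trans (le_max_right _ _)
      have hfar : ∀ c, c < s.ht → c < t.ht → s.fn c ≠ t.fn c →
          ∃ A B : Set (Pt e), IsOpen A ∧ IsOpen B ∧ ((s, false) : Pt e) ∈ A ∧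
            ((t, true) : Pt e) ∈ B ∧ (diag A B).Countable := by
        intro c h1 h2 h3
        refine ⟨Bs false s c, Bs true t c, isOpen_Bs _ _ _, isOpen_Bs _ _ _,
          ⟨rfl, self_mem_N _ _ h1⟩, ⟨rfl, self_mem_N _ _ h2⟩, ?_⟩
        refine countable_empty.mono ?_
        rintro r ⟨k1, k2⟩
        exact h3 ((k1.2.2.1 c le_rfl).symm.trans (k2.2.2.1 c le_rfl))
      rcases cases4 false s t with h | h | h | h
      · refine ⟨Bs false s c1, Bs true t c2, isOpen_Bs _ _ _, isOpen_Bs _ _ _,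
          ⟨rfl, self_mem_N _ _ hc1⟩, ⟨rfl, self_mem_N _ _ hc2⟩, ?_⟩
        refine (countable_le hc he (max s.ht t.ht)).mono ?_
        rintro r ⟨k1, k2⟩
        rcases k1.2.2.2 with k3 | k3
        · exact hsmall r (Or.inl k3)
        rcases k2.2.2.2 with k4 | k4
        · exact hsmall r (Or.inr k4)
        · exact (R.flip k4 (k3.ext_left h)).elim
      · refine ⟨Bs false s c1, Bs true t c2, isOpen_Bs _ _ _, isOpen_Bs _ _ _,
          ⟨rfl, self_mem_N _ _ hc1⟩, ⟨rfl, self_mem_N _ _ hc2⟩, ?_⟩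
        refine (countable_le hc he (max s.ht t.ht)).mono ?_
        rintro r ⟨k1, k2⟩
        rcases k1.2.2.2 with k3 | k3
        · exact hsmall r (Or.inl k3)
        rcases k2.2.2.2 with k4 | k4
        · exact hsmall r (Or.inr k4)
        · exact (R.flip (k4.ext_left h) k3).elim
      · obtain ⟨c, m1, m2, m3, m4⟩ := h
        exact hfar c m2 m1 (lab_ne m4).symm
      · obtain ⟨c, m1, m2, m3, m4⟩ := h
        exact hfar c m1 m2 (lab_ne m4)

omit [WellFoundedLT W] in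
theorem uncountable_nodes (hc : ∀ a : W, (Iio a).Countable) (hu : ¬ (univ : Set W).Countable) :
    ¬ (univ : Set (Node e)).Countable := by
  classical
  intro h
  obtain ⟨b, hb⟩ := bdd_of_countable hc hu (h.image (fun t => t.ht))
  obtain ⟨b', hb'⟩ := bdd_of_countable hc hu (countable_singleton b)
  have hbb : b < b' := hb' b rfl
  have h1 : ∃ t : Node e, t.ht = b' := by
    refine ⟨⟨b', fun c => if c < b' then e b' c else 0, ⟨b, hbb⟩, ?_, ⟨b', le_rfl, ?_⟩⟩, rfl⟩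
    · intro c hc
      simp [not_lt.2 hc]
    · intro c hc
      simp [hc]
  obtain ⟨t, ht⟩ := h1
  have h2 := hb t.ht ⟨t, mem_univ _, rfl⟩
  rw [ht] at h2
  exact lt_irrefl _ (h2.trans hbb)

/-- a countable base of pieces adapted to a level -/
theorem rothberger_core (hc : ∀ a : W, (Iio a).Countable) (hu : ¬ (univ : Set W).Countable)
    (hfin : ∀ a k, {b | b < a ∧ e a b = k}.Finite)
    (he : ∀ a b, b < a → {c | c < b ∧ e a c ≠ e b c}.Finite)
    (F : ℕ → Set (Set (Pt e))) (hF : ∀ n, (∀ U ∈ F n, IsOpen U) ∧ ⋃₀ F n = univ) :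
    ∃ U : ℕ → Set (Pt e), (∀ n, U n ∈ F n) ∧ ⋃ n, U n = univ := by
  classical
  have hch : ∀ n (x : Pt e), ∃ U ∈ F n, ∃ z, z < x.1.ht ∧
      ∀ s ∈ N x.2 x.1 z, mkPt s x.2 ∈ U := by
    intro n x
    have hx : x ∈ ⋃₀ F n := by rw [(hF n).2]; exact mem_univ x
    obtain ⟨U, hU, hxU⟩ := hx
    obtain ⟨z, hz, h⟩ := (hF n).1 U hU x.1 x.2 hxU
    exact ⟨U, hU, z, hz, h⟩
  choose U hU z hz hN using hch
  have hcov : ∀ n σ, Cov (e := e) σ (fun t => z n (mkPt t σ)) univ := fun n σ =>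
    cover hc hu hfin he σ _ (fun t => hz n (mkPt t σ))
  choose C hC1 hC2 using hcov
  -- the level
  have hcount : (⋃ n, ⋃ σ, (fun t : Node e => t.ht) '' C n σ).Countable :=
    countable_iUnion fun n => countable_iUnion fun σ => (hC1 n σ).image _
  obtain ⟨δ, hδ⟩ := bdd_of_countable hc hu hcount
  have hδ' : ∀ n σ, ∀ t ∈ C n σ, t.ht < δ := fun n σ t ht =>
    hδ _ (mem_iUnion.2 ⟨n, mem_iUnion.2 ⟨σ, ⟨t, ht, rfl⟩⟩⟩)
  have hJ : {x : Pt e | x.1.ht ≤ δ}.Countable := by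
    have h1 : ({t : Node e | t.ht ≤ δ} ×ˢ (univ : Set Bool)).Countable :=
      (countable_le hc he δ).prod (countable_univ_iff.2 inferInstance)
    refine Countable.mono ?_ h1
    exact fun x hx => ⟨hx, mem_univ _⟩
  -- for each stage and each low point a member of the cover containing the piece
  have hpiece : ∀ n (x : Pt e), x.1.ht ≤ δ → ∃ V ∈ F n, x ∈ V ∧
      (x.1.ht = δ → ∀ s : Node e, Le x.1 s → mkPt s x.2 ∈ V) := by
    intro n x hx
    rcases hx.lt_or_eq with h | h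
    · exact ⟨U n x, hU n x, hN n x x.1 (self_mem_N _ _ (hz n x)), fun h' => absurd h' h.ne⟩
    · have hx1 := hC2 n x.2 (mem_univ x.1)
      obtain ⟨t, ht, hxt⟩ := mem_iUnion₂.1 hx1
      refine ⟨U n (mkPt t x.2), hU n _, hN n (mkPt t x.2) x.1 hxt, fun _ s hs => ?_⟩
      refine hN n (mkPt t x.2) s ?_
      obtain ⟨k1, k2, k3⟩ := hxt
      rcases k3 with k3 | k3
      · exact absurd k3.1 (not_le.2 (h ▸ hδ' n x.2 t ht))
      · refine ⟨k1.trans_le hs.1, fun c hcz => ?_, Or.inr (k3.ext_right hs)⟩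
        rw [hs.2 c (hcz.trans_lt k1)]
        exact k2 c hcz
  have hW : Nonempty W := by
    by_contra h
    rw [not_nonempty_iff] at h
    exact hu (countable_univ_iff.2 inferInstance)
  -- nonempty index set
  have hne : (univ : Set (Pt e)).Nonempty := by
    by_contra h
    rw [not_nonempty_iff_eq_empty] at h
    apply uncountable_nodes (e := e) hc hu
    have h2 : (univ : Set (Node e)) = ∅ := by
      ext t
      constructor
      · intro _
        have : mkPt t true ∈ (univ : Set (Pt e)) := mem_univ _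
        rw [h] at this
        exact this
      · exact fun h => h.elim
    rw [h2]
    exact countable_empty
  obtain ⟨x0, -⟩ := hne
  have hres : ∀ x : Pt e, ∃ y : Pt e, y.1.ht ≤ δ ∧
      (y = x ∨ (y.1.ht = δ ∧ Le y.1 x.1 ∧ y.2 = x.2)) := by
    intro x
    rcases le_total x.1.ht δ with h | h
    · exact ⟨x, h, Or.inl rfl⟩
    · have hp : ∃ c, c < δ := by
        obtain ⟨t, ht, _⟩ := mem_iUnion₂.1 (hC2 0 true (mem_univ x.1))
        exact ⟨_, hδ' 0 true t ht⟩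
      exact ⟨mkPt (res x.1 δ h hp) x.2, le_rfl, Or.inr ⟨rfl, res_le x.1 δ h hp, rfl⟩⟩
  obtain ⟨y0, hy0, -⟩ := hres x0
  obtain ⟨f, hf⟩ := hJ.exists_eq_range ⟨y0, hy0⟩
  have hfn : ∀ n, (f n).1.ht ≤ δ := fun n => by
    have : f n ∈ {x : Pt e | x.1.ht ≤ δ} := by rw [hf]; exact ⟨n, rfl⟩
    exact this
  choose V hV1 hV2 hV3 using fun n => hpiece n (f n) (hfn n)
  refine ⟨V, hV1, eq_univ_of_forall fun x => ?_⟩
  obtain ⟨y, hy, h⟩ := hres x
  obtain ⟨n, hn⟩ : y ∈ range f := by rw [← hf]; exact hy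
  refine mem_iUnion.2 ⟨n, ?_⟩
  rcases h with h | ⟨h1, h2, h3⟩
  · rw [← h, ← hn]
    exact hV2 n
  · have := hV3 n (by rw [hn]; exact h1) x.1 (by rw [hn]; exact h2)
    rw [hn, h3] at this
    exact this

end Pool.Agent.H381R3.Roth
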